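import Mathlib

/-! Fourth-moment Khintchine inequalities for random signs. -/

namespace Pool.Agent.MP_9e3e49_an.H51

open Finset

/-- the sign attached to a subset -/
noncomputable def sg {α : Type} [DecidableEq α] (T : Finset α) (a : α) : ℂ :=
  if a ∈ T then 1 else -1

theorem sg_mul_self {α : Type} [DecidableEq α] (T : Finset α) (a : α) : sg T a * sg T a = 1 := by
  unfold sg; split_ifs <;> simp

theorem star_sg {α : Type} [DecidableEq α] (T : Finset α) (a : α) : star (sg T a) = sg T a := by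
  unfold sg; split_ifs <;> simp

section
variable {α E : Type} [DecidableEq α] [NormedAddCommGroup E] [InnerProductSpace ℂ E]

theorem sum_insert_sg (c : α → E) {s T : Finset α} {a : α} (ha : a ∉ s) (hT : T ⊆ s) :
    ∑ b ∈ insert a s, sg T b • c b = (∑ b ∈ s, sg T b • c b) - c a := by
  rw [Finset.sum_insert ha]
  have : a ∉ T := fun h => ha (hT h)
  simp only [sg, this, if_false, neg_smul, one_smul]
  abel

theorem sum_insert_sg' (c : α → E) {s T : Finset α} {a : α} (ha : a ∉ s) :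
    ∑ b ∈ insert a s, sg (insert a T) b • c b = (∑ b ∈ s, sg T b • c b) + c a := by
  rw [Finset.sum_insert ha, add_comm]
  congr 1
  · refine Finset.sum_congr rfl fun b hb => ?_
    have : b ≠ a := fun h => ha (h ▸ hb)
    simp [sg, this]
  · simp [sg]

theorem khin2 (c : α → E) (s : Finset α) :
    ∑ T ∈ s.powerset, ‖∑ a ∈ s, sg T a • c a‖ ^ 2 = 2 ^ s.card * ∑ a ∈ s, ‖c a‖ ^ 2 := by
  induction s using Finset.induction_on with
  | empty => simp
  | insert a s ha ih =>
    rw [Finset.sum_powerset_insert ha, Finset.sum_insert ha, Finset.card_insert_of_notMem ha,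
      ← Finset.sum_add_distrib]
    have : ∀ T ∈ s.powerset, ‖∑ b ∈ insert a s, sg T b • c b‖ ^ 2 +
        ‖∑ b ∈ insert a s, sg (insert a T) b • c b‖ ^ 2 =
        2 * ‖∑ b ∈ s, sg T b • c b‖ ^ 2 + 2 * ‖c a‖ ^ 2 := by
      intro T hT
      rw [sum_insert_sg c ha (Finset.mem_powerset.1 hT), sum_insert_sg' c ha,
        norm_sub_sq (𝕜 := ℂ), norm_add_sq (𝕜 := ℂ)]
      ring
    rw [Finset.sum_congr rfl this, Finset.sum_add_distrib, ← Finset.mul_sum, ih,
      Finset.sum_const, Finset.card_powerset, nsmul_eq_mul]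
    push_cast
    ring

theorem khin4 (c : α → E) (s : Finset α) :
    ∑ T ∈ s.powerset, ‖∑ a ∈ s, sg T a • c a‖ ^ 4 ≤
      3 * 2 ^ s.card * (∑ a ∈ s, ‖c a‖ ^ 2) ^ 2 := by
  induction s using Finset.induction_on with
  | empty => simp
  | insert a s ha ih =>
    rw [Finset.sum_powerset_insert ha, Finset.sum_insert ha, Finset.card_insert_of_notMem ha,
      ← Finset.sum_add_distrib]
    have : ∀ T ∈ s.powerset, ‖∑ b ∈ insert a s, sg T b • c b‖ ^ 4 +
        ‖∑ b ∈ insert a s, sg (insert a T) b • c b‖ ^ 4 ≤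
        2 * ‖∑ b ∈ s, sg T b • c b‖ ^ 4 + 12 * ‖c a‖ ^ 2 * ‖∑ b ∈ s, sg T b • c b‖ ^ 2 +
          2 * ‖c a‖ ^ 4 := by
      intro T hT
      rw [sum_insert_sg c ha (Finset.mem_powerset.1 hT), sum_insert_sg' c ha]
      set S := ∑ b ∈ s, sg T b • c b
      have h1 : ‖S - c a‖ ^ 4 = (‖S - c a‖ ^ 2) ^ 2 := by ring
      have h2 : ‖S + c a‖ ^ 4 = (‖S + c a‖ ^ 2) ^ 2 := by ring
      rw [h1, h2, norm_sub_sq (𝕜 := ℂ), norm_add_sq (𝕜 := ℂ)]
      have h3 : |RCLike.re (inner ℂ S (c a))| ≤ ‖S‖ * ‖c a‖ :=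
        (RCLike.abs_re_le_norm _).trans (norm_inner_le_norm _ _)
      have h4 : (RCLike.re (inner ℂ S (c a))) ^ 2 ≤ (‖S‖ * ‖c a‖) ^ 2 := by
        rw [← sq_abs]
        exact pow_le_pow_left₀ (abs_nonneg _) h3 2
      nlinarith
    refine (Finset.sum_le_sum this).trans ?_
    rw [Finset.sum_add_distrib, Finset.sum_add_distrib, ← Finset.mul_sum, ← Finset.mul_sum,
      khin2, Finset.sum_const, Finset.card_powerset, nsmul_eq_mul]
    push_cast
    have h5 : (0 : ℝ) ≤ 2 ^ s.card * ‖c a‖ ^ 4 := by positivity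
    rw [pow_succ (2 : ℝ)]
    nlinarith

end

theorem chaos4 {α β : Type} [Fintype α] [Fintype β] [DecidableEq α] [DecidableEq β]
    (d : α → β → ℂ) :
    ∑ T : Finset α × Finset β, ‖∑ a, ∑ b, sg T.1 a * sg T.2 b * d a b‖ ^ 4 ≤
      9 * Fintype.card (Finset α × Finset β) * (∑ a, ∑ b, ‖d a b‖ ^ 2) ^ 2 := by
  rw [Fintype.sum_prod_type, Finset.sum_comm]
  have h1 : ∀ T2 : Finset β, ∑ T1 : Finset α, ‖∑ a, ∑ b, sg T1 a * sg T2 b * d a b‖ ^ 4 ≤
      3 * 2 ^ Fintype.card α *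
        ‖∑ b, sg T2 b • (WithLp.toLp 2 (fun a => d a b) : EuclideanSpace ℂ α)‖ ^ 4 := by
    intro T2
    have h := khin4 (E := ℂ) (fun a => ∑ b, sg T2 b * d a b) Finset.univ
    rw [Finset.powerset_univ, Finset.card_univ] at h
    refine le_trans (le_of_eq ?_) (h.trans (le_of_eq ?_))
    · simp only [smul_eq_mul, Finset.mul_sum, mul_assoc]
    · congr 1
      rw [show (4 : ℕ) = 2 * 2 from rfl, pow_mul, EuclideanSpace.norm_sq_eq]
      simp
  refine (Finset.sum_le_sum fun T2 _ => h1 T2).trans ?_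
  rw [← Finset.mul_sum]
  have h := khin4 (E := EuclideanSpace ℂ α) (fun b => WithLp.toLp 2 (fun a => d a b)) Finset.univ
  rw [Finset.powerset_univ, Finset.card_univ] at h
  refine (mul_le_mul_of_nonneg_left h (by positivity)).trans (le_of_eq ?_)
  simp only [EuclideanSpace.norm_sq_eq, Fintype.card_prod, Fintype.card_finset]
  rw [Finset.sum_comm]
  push_cast
  ring

end Pool.Agent.MP_9e3e49_an.H51
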