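import Mathlib

/-! Elementary facts on the Hilbert-Schmidt norm of complex matrices. -/

namespace Pool.Agent.MP_9e3e49_an.H51

open Matrix

theorem trace_re_eq {ι : Type} [Fintype ι] (A : Matrix ι ι ℂ) :
    (Aᴴ * A).trace.re = ∑ i, ∑ j, ‖A i j‖ ^ 2 := by
  rw [Finset.sum_comm]
  simp only [Matrix.trace, Matrix.diag, Matrix.mul_apply, Matrix.conjTranspose_apply,
    Complex.re_sum]
  refine Finset.sum_congr rfl fun j _ => Finset.sum_congr rfl fun i _ => ?_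
  rw [Complex.star_def, Complex.conj_mul']
  norm_cast

theorem hs_eq_norm_sq {ι : Type} [Fintype ι] (A : Matrix ι ι ℂ) :
    ∑ i, ∑ j, ‖A i j‖ ^ 2 =
      ‖(WithLp.toLp 2 (fun p : ι × ι => A p.1 p.2) : EuclideanSpace ℂ (ι × ι))‖ ^ 2 := by
  rw [EuclideanSpace.norm_sq_eq, Fintype.sum_prod_type]

theorem sqrt_hs_add_le {ι : Type} [Fintype ι] (A B : Matrix ι ι ℂ) :
    Real.sqrt (∑ i, ∑ j, ‖(A + B) i j‖ ^ 2) ≤
      Real.sqrt (∑ i, ∑ j, ‖A i j‖ ^ 2) + Real.sqrt (∑ i, ∑ j, ‖B i j‖ ^ 2) := by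
  simp only [hs_eq_norm_sq, Real.sqrt_sq (norm_nonneg _)]
  refine le_trans (le_of_eq ?_) (norm_add_le _ _)
  congr 1

theorem hs_mul_le {ι : Type} [Fintype ι] [DecidableEq ι] (A B : Matrix ι ι ℂ) :
    ∑ i, ∑ j, ‖(A * B) i j‖ ^ 2 ≤
      ‖Matrix.toEuclideanCLM (n := ι) (𝕜 := ℂ) A‖ ^ 2 * ∑ i, ∑ j, ‖B i j‖ ^ 2 := by
  rw [Finset.sum_comm, Finset.sum_comm (f := fun i j => ‖B i j‖ ^ 2), Finset.mul_sum]
  refine Finset.sum_le_sum fun j _ => ?_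
  have h := (Matrix.toEuclideanCLM (n := ι) (𝕜 := ℂ) A).le_opNorm
    (WithLp.toLp 2 (fun i => B i j))
  have h2 := pow_le_pow_left₀ (norm_nonneg _) h 2
  rw [mul_pow, EuclideanSpace.norm_sq_eq, EuclideanSpace.norm_sq_eq] at h2
  simpa [Matrix.mul_apply, Matrix.mulVec, dotProduct] using h2

theorem hs_conjTranspose {ι : Type} [Fintype ι] (A : Matrix ι ι ℂ) :
    ∑ i, ∑ j, ‖Aᴴ i j‖ ^ 2 = ∑ i, ∑ j, ‖A i j‖ ^ 2 := by
  rw [Finset.sum_comm]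
  simp [Matrix.conjTranspose_apply]

end Pool.Agent.MP_9e3e49_an.H51
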