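import Mathlib
import Pool.Agent.MP_9e3e49_an.H51.Mat

/-! The tracial matrix ultraproduct, the image of the symmetric-group ultraproduct in it, and the
von Neumann subalgebra that this image generates. -/

namespace Pool.Agent.MP_9e3e49_an.H51

open Filter Topology Matrix

set_option warn.classDefReducibility false

open scoped Matrix.Norms.L2Operator in
/-- Operator norm of an `n × n` complex matrix. -/
noncomputable def opNorm {n : ℕ} (A : Matrix (Fin n) (Fin n) ℂ) : ℝ := ‖A‖

theorem opNorm_eq {n : ℕ} (A : Matrix (Fin n) (Fin n) ℂ) :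
    opNorm A = ‖Matrix.toEuclideanCLM (n := Fin n) (𝕜 := ℂ) A‖ := rfl

/-- The normalized 2-norm, the square root of `tr_n (A^* A)`. -/
noncomputable def twoNorm {n : ℕ} (A : Matrix (Fin n) (Fin n) ℂ) : ℝ :=
  Real.sqrt ((A.conjTranspose * A).trace.re / n)

theorem opNorm_nonneg {n : ℕ} (A : Matrix (Fin n) (Fin n) ℂ) : 0 ≤ opNorm A := by
  rw [opNorm_eq]; exact norm_nonneg _

theorem opNorm_add_le {n : ℕ} (A B : Matrix (Fin n) (Fin n) ℂ) :
    opNorm (A + B) ≤ opNorm A + opNorm B := by
  simp only [opNorm_eq]; rw [map_add]; exact norm_add_le _ _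

theorem opNorm_mul_le {n : ℕ} (A B : Matrix (Fin n) (Fin n) ℂ) :
    opNorm (A * B) ≤ opNorm A * opNorm B := by
  simp only [opNorm_eq]; rw [map_mul]; exact norm_mul_le _ _

theorem opNorm_star {n : ℕ} (A : Matrix (Fin n) (Fin n) ℂ) : opNorm (star A) = opNorm A := by
  simp only [opNorm_eq]; rw [map_star]; exact ContinuousLinearMap.adjoint.norm_map _

theorem opNorm_algebraMap_le {n : ℕ} (c : ℂ) :
    opNorm (algebraMap ℂ (Matrix (Fin n) (Fin n) ℂ) c) ≤ ‖c‖ := by
  rw [opNorm_eq]
  rw [Algebra.algebraMap_eq_smul_one, map_smul, map_one, norm_smul]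
  exact mul_le_of_le_one_right (norm_nonneg _) ContinuousLinearMap.norm_id_le

theorem twoNorm_nonneg {n : ℕ} (A : Matrix (Fin n) (Fin n) ℂ) : 0 ≤ twoNorm A :=
  Real.sqrt_nonneg _

theorem twoNorm_eq {n : ℕ} (A : Matrix (Fin n) (Fin n) ℂ) :
    twoNorm A = Real.sqrt (∑ i, ∑ j, ‖A i j‖ ^ 2) / Real.sqrt n := by
  rw [twoNorm, trace_re_eq, Real.sqrt_div (by positivity)]

theorem twoNorm_add_le {n : ℕ} (A B : Matrix (Fin n) (Fin n) ℂ) :
    twoNorm (A + B) ≤ twoNorm A + twoNorm B := by
  simp only [twoNorm_eq, ← add_div]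
  exact div_le_div_of_nonneg_right (sqrt_hs_add_le A B) (Real.sqrt_nonneg _)

theorem twoNorm_mul_le {n : ℕ} (A B : Matrix (Fin n) (Fin n) ℂ) :
    twoNorm (A * B) ≤ opNorm A * twoNorm B := by
  simp only [twoNorm_eq, ← mul_div_assoc]
  refine div_le_div_of_nonneg_right ?_ (Real.sqrt_nonneg _)
  refine (Real.sqrt_le_sqrt (hs_mul_le A B)).trans (le_of_eq ?_)
  rw [Real.sqrt_mul (by positivity), Real.sqrt_sq (norm_nonneg _), opNorm_eq]

theorem twoNorm_star {n : ℕ} (A : Matrix (Fin n) (Fin n) ℂ) : twoNorm (star A) = twoNorm A := by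
  rw [twoNorm_eq, twoNorm_eq, Matrix.star_eq_conjTranspose, hs_conjTranspose]

theorem twoNorm_mul_le' {n : ℕ} (A B : Matrix (Fin n) (Fin n) ℂ) :
    twoNorm (A * B) ≤ opNorm B * twoNorm A := by
  rw [← twoNorm_star, star_mul, ← twoNorm_star A, ← opNorm_star B]
  exact twoNorm_mul_le _ _

/-- The unital star-algebra of operator-norm bounded sequences `(x_n)`, `x_n ∈ M_n(ℂ)`. -/
def BddAlg : StarSubalgebra ℂ (∀ n : ℕ, Matrix (Fin n) (Fin n) ℂ) where
  carrier := {x | ∃ C : ℝ, ∀ n, opNorm (x n) ≤ C}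
  mul_mem' := by
    rintro x y ⟨C, hC⟩ ⟨D, hD⟩
    exact ⟨C * D, fun n => (opNorm_mul_le _ _).trans
      (mul_le_mul (hC n) (hD n) (opNorm_nonneg _) ((opNorm_nonneg _).trans (hC n)))⟩
  add_mem' := by
    rintro x y ⟨C, hC⟩ ⟨D, hD⟩
    exact ⟨C + D, fun n => (opNorm_add_le _ _).trans (add_le_add (hC n) (hD n))⟩
  algebraMap_mem' := fun c => ⟨‖c‖, fun n => opNorm_algebraMap_le c⟩
  star_mem' := by
    rintro x ⟨C, hC⟩
    exact ⟨C, fun n => (opNorm_star _).le.trans (hC n)⟩

/-- The bounded sequences, as a type. -/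
def Bdd : Type := BddAlg

/-- Termwise ring structure. -/
@[instance] noncomputable def ringBdd : Ring Bdd := SubringClass.toRing BddAlg

/-- Termwise algebra structure. -/
@[instance] noncomputable def algebraBdd : Algebra ℂ Bdd := BddAlg.algebra

/-- Termwise adjoint. -/
@[instance] noncomputable def starRingBdd : StarRing Bdd := BddAlg.starRing

instance : StarModule ℂ Bdd := StarSubalgebra.starModule BddAlg

/-- The `n`-th term of a bounded sequence. -/
def term (x : Bdd) (n : ℕ) : Matrix (Fin n) (Fin n) ℂ := x.1 n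

/-- The ideal of bounded sequences whose 2-norm tends to `0` along `U`. -/
def nullIdeal (U : Ultrafilter ℕ) : Ideal Bdd where
  carrier := {x | Tendsto (fun n => twoNorm (term x n)) U (𝓝 0)}
  zero_mem' := by
    change Tendsto (fun n => twoNorm (0 : Matrix (Fin n) (Fin n) ℂ)) U (𝓝 0)
    simp [twoNorm]
  add_mem' := by
    intro x y hx hy
    have h := Tendsto.add hx hy
    rw [add_zero] at h
    exact squeeze_zero (fun n => twoNorm_nonneg _) (fun n => twoNorm_add_le _ _) h
  smul_mem' := by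
    intro c x hx
    obtain ⟨C, hC⟩ := c.2
    have h := Tendsto.const_mul C hx
    rw [mul_zero] at h
    exact squeeze_zero (fun n => twoNorm_nonneg _) (fun n => (twoNorm_mul_le _ _).trans
      (mul_le_mul_of_nonneg_right (hC n) (twoNorm_nonneg _))) h

instance (U : Ultrafilter ℕ) : (nullIdeal U).IsTwoSided where
  mul_mem_of_left := by
    intro x c hx
    obtain ⟨C, hC⟩ := c.2
    have h := Tendsto.const_mul C hx
    rw [mul_zero] at h
    exact squeeze_zero (fun n => twoNorm_nonneg _) (fun n => (twoNorm_mul_le' _ _).trans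
      (mul_le_mul_of_nonneg_right (hC n) (twoNorm_nonneg _))) h

theorem star_mem_nullIdeal {U : Ultrafilter ℕ} {x : Bdd} (hx : x ∈ nullIdeal U) :
    star x ∈ nullIdeal U :=
  Tendsto.congr (fun n => (twoNorm_star (term x n)).symm) hx

/-- The tracial matrix ultraproduct along `U`. -/
def MU (U : Ultrafilter ℕ) : Type := Bdd ⧸ nullIdeal U

/-- Quotient ring structure. -/
@[instance] noncomputable def ringMU (U : Ultrafilter ℕ) : Ring (MU U) :=
  Ideal.Quotient.ring (nullIdeal U)

/-- Quotient algebra structure. -/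
@[instance] noncomputable def algebraMU (U : Ultrafilter ℕ) : Algebra ℂ (MU U) :=
  Ideal.Quotient.algebra ℂ (I := nullIdeal U)

/-- The quotient map. -/
noncomputable def mk (U : Ultrafilter ℕ) : AlgHom ℂ Bdd (MU U) :=
  Ideal.Quotient.mkₐ ℂ (nullIdeal U)

/-- The star operation induced on the quotient of a star-ring by a star-closed ideal. -/
def quotStar {R : Type} [Ring R] [StarRing R] (I : Ideal R) (h : ∀ x ∈ I, star x ∈ I) :
    R ⧸ I → R ⧸ I :=
  Quotient.map' (fun x : R => star x) (by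
    intro x y hxy
    rw [Submodule.quotientRel_def] at hxy ⊢
    exact (star_sub x y) ▸ h _ hxy)

/-- The adjoint, induced by the termwise adjoint of matrices. -/
noncomputable instance (U : Ultrafilter ℕ) : Star (MU U) :=
  ⟨quotStar (nullIdeal U) fun _ hx => star_mem_nullIdeal hx⟩

theorem mk_surjective (U : Ultrafilter ℕ) : Function.Surjective (mk U) :=
  Ideal.Quotient.mkₐ_surjective ℂ (nullIdeal U)

theorem star_mk (U : Ultrafilter ℕ) (x : Bdd) : star (mk U x) = mk U (star x) := rfl

noncomputable instance (U : Ultrafilter ℕ) : StarRing (MU U) where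
  star_involutive := by
    intro x
    obtain ⟨x, rfl⟩ := mk_surjective U x
    rw [star_mk, star_mk, star_star]
  star_mul := by
    intro x y
    obtain ⟨x, rfl⟩ := mk_surjective U x
    obtain ⟨y, rfl⟩ := mk_surjective U y
    rw [← map_mul, star_mk, star_mk, star_mk, star_mul, map_mul]
  star_add := by
    intro x y
    obtain ⟨x, rfl⟩ := mk_surjective U x
    obtain ⟨y, rfl⟩ := mk_surjective U y
    rw [← map_add, star_mk, star_mk, star_mk, star_add, map_add]

instance (U : Ultrafilter ℕ) : StarModule ℂ (MU U) where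
  star_smul := by
    intro c x
    obtain ⟨x, rfl⟩ := mk_surjective U x
    rw [← map_smul, star_mk, star_mk, star_smul, map_smul]

/-- The image of the symmetric-group ultraproduct: classes of sequences of permutation
matrices. -/
def SU (U : Ultrafilter ℕ) : Set (MU U) :=
  {x | ∃ (σ : ∀ n : ℕ, Equiv.Perm (Fin n)) (z : Bdd),
    (∀ n, term z n = (σ n).permMatrix ℂ) ∧ mk U z = x}

/-- The 2-norm closure, inside the ultraproduct, of the unital star-algebra generated by `SU U`:
the von Neumann subalgebra generated by `SU U`. -/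
def WS (U : Ultrafilter ℕ) : Set (MU U) :=
  {x | ∀ ε : ℝ, 0 < ε → ∃ y ∈ StarAlgebra.adjoin ℂ (SU U), ∃ z : Bdd,
    mk U z = x - y ∧ ∀ᶠ n in (U : Filter ℕ), twoNorm (term z n) < ε}

end Pool.Agent.MP_9e3e49_an.H51
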