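import Mathlib
import Pool.Agent.MP_9e3e49_an.H51.Defs

/-! The trace and the 2-norm on the ultraproduct. -/

namespace Pool.Agent.MP_9e3e49_an.H51

open Filter Topology Matrix

/-- normalized trace -/
noncomputable def ntr {n : ℕ} (A : Matrix (Fin n) (Fin n) ℂ) : ℂ := A.trace / n

theorem twoNorm_sq {n : ℕ} (A : Matrix (Fin n) (Fin n) ℂ) :
    twoNorm A ^ 2 = (∑ i, ∑ j, ‖A i j‖ ^ 2) / n := by
  rw [twoNorm, trace_re_eq, Real.sq_sqrt (by positivity)]

theorem twoNorm_eq_sqrt_ntr {n : ℕ} (A : Matrix (Fin n) (Fin n) ℂ) :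
    twoNorm A = Real.sqrt (ntr (star A * A)).re := by
  rw [twoNorm, ntr, Matrix.star_eq_conjTranspose]
  congr 1
  rw [show ((n : ℂ)) = ((n : ℝ) : ℂ) by simp, Complex.div_ofReal_re]

theorem norm_ntr_mul_le {n : ℕ} (A B : Matrix (Fin n) (Fin n) ℂ) :
    ‖ntr (star A * B)‖ ≤ twoNorm A * twoNorm B := by
  rw [twoNorm_eq, twoNorm_eq, hs_eq_norm_sq, hs_eq_norm_sq, Real.sqrt_sq (norm_nonneg _),
    Real.sqrt_sq (norm_nonneg _), div_mul_div_comm, Real.mul_self_sqrt (by positivity), ntr,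
    norm_div, Complex.norm_natCast]
  refine div_le_div_of_nonneg_right ?_ (by positivity)
  refine le_trans (le_of_eq ?_) (norm_inner_le_norm (𝕜 := ℂ) _ _)
  congr 1
  rw [PiLp.inner_apply, Fintype.sum_prod_type, Finset.sum_comm]
  simp [Matrix.trace, Matrix.mul_apply, Matrix.star_eq_conjTranspose, mul_comm]

theorem twoNorm_one_le {n : ℕ} : twoNorm (1 : Matrix (Fin n) (Fin n) ℂ) ≤ 1 := by
  rw [twoNorm]
  simp only [conjTranspose_one, mul_one, trace_one, Fintype.card_fin, Complex.natCast_re]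
  exact Real.sqrt_le_one.2 (div_self_le_one _)

theorem norm_ntr_le {n : ℕ} (A : Matrix (Fin n) (Fin n) ℂ) : ‖ntr A‖ ≤ twoNorm A := by
  have h := norm_ntr_mul_le 1 A
  rw [star_one, one_mul] at h
  exact h.trans (mul_le_of_le_one_left (twoNorm_nonneg _) twoNorm_one_le)

theorem twoNorm_le_opNorm {n : ℕ} (A : Matrix (Fin n) (Fin n) ℂ) : twoNorm A ≤ opNorm A := by
  have h := twoNorm_mul_le A 1
  rw [mul_one] at h
  exact h.trans (mul_le_of_le_one_right (opNorm_nonneg _) twoNorm_one_le)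

theorem twoNorm_smul {n : ℕ} (c : ℂ) (A : Matrix (Fin n) (Fin n) ℂ) :
    twoNorm (c • A) = ‖c‖ * twoNorm A := by
  rw [twoNorm_eq, twoNorm_eq, ← mul_div_assoc]
  congr 1
  simp only [Matrix.smul_apply, smul_eq_mul, norm_mul, mul_pow, ← Finset.mul_sum]
  rw [Real.sqrt_mul (by positivity), Real.sqrt_sq (norm_nonneg _)]

variable (U : Ultrafilter ℕ)

theorem exists_tendsto_ntr (z : Bdd) : ∃ c : ℂ, Tendsto (fun n => ntr (term z n)) U (𝓝 c) := by
  obtain ⟨C, hC⟩ := z.2
  have h : ((U.map (fun n => ntr (term z n)) : Ultrafilter ℂ) : Filter ℂ) ≤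
      𝓟 (Metric.closedBall 0 C) := by
    rw [Ultrafilter.coe_map, le_principal_iff, mem_map]
    refine univ_mem' fun n => ?_
    simp only [Set.mem_preimage, Metric.mem_closedBall, dist_zero_right]
    exact (norm_ntr_le _).trans ((twoNorm_le_opNorm _).trans (hC n))
  obtain ⟨c, -, hc⟩ := (isCompact_closedBall (0 : ℂ) C).ultrafilter_le_nhds _ h
  exact ⟨c, hc⟩

theorem mk_eq_zero_iff (z : Bdd) :
    mk U z = 0 ↔ Tendsto (fun n => twoNorm (term z n)) U (𝓝 0) :=
  Ideal.Quotient.eq_zero_iff_mem (I := nullIdeal U)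

theorem mk_eq_mk_iff (z w : Bdd) :
    mk U z = mk U w ↔ Tendsto (fun n => twoNorm (term z n - term w n)) U (𝓝 0) := by
  rw [← sub_eq_zero, ← map_sub, mk_eq_zero_iff]
  rfl

/-- the trace -/
noncomputable def tau (x : MU U) : ℂ :=
  Classical.choose (exists_tendsto_ntr U (Function.surjInv (mk_surjective U) x))

theorem tendsto_tau (z : Bdd) : Tendsto (fun n => ntr (term z n)) U (𝓝 (tau U (mk U z))) := by
  set w := Function.surjInv (mk_surjective U) (mk U z) with hw
  have h1 : Tendsto (fun n => ntr (term w n)) U (𝓝 (tau U (mk U z))) :=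
    Classical.choose_spec (exists_tendsto_ntr U w)
  have h2 : mk U z = mk U w := (Function.surjInv_eq (mk_surjective U) _).symm
  rw [mk_eq_mk_iff] at h2
  have h3 : Tendsto (fun n => ntr (term z n - term w n)) U (𝓝 0) :=
    squeeze_zero_norm (fun n => norm_ntr_le _) h2
  have h4 := h1.add h3
  rw [add_zero] at h4
  refine h4.congr fun n => ?_
  simp only [ntr, trace_sub]
  ring

/-- the 2-norm -/
noncomputable def nrm (x : MU U) : ℝ := Real.sqrt (tau U (star x * x)).re

theorem tendsto_nrm (z : Bdd) : Tendsto (fun n => twoNorm (term z n)) U (𝓝 (nrm U (mk U z))) := by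
  have h := tendsto_tau U (star z * z)
  rw [map_mul, ← star_mk] at h
  have h2 := (Real.continuous_sqrt.comp Complex.continuous_re).continuousAt.tendsto.comp h
  refine h2.congr fun n => ?_
  rw [twoNorm_eq_sqrt_ntr]
  rfl

variable {U}

theorem tau_add (x y : MU U) : tau U (x + y) = tau U x + tau U y := by
  obtain ⟨x, rfl⟩ := mk_surjective U x
  obtain ⟨y, rfl⟩ := mk_surjective U y
  rw [← map_add]
  refine tendsto_nhds_unique (tendsto_tau U _) (((tendsto_tau U x).add (tendsto_tau U y)).congr ?_)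
  intro n
  simp only [ntr, ← add_div, ← trace_add]
  rfl

theorem tau_smul (c : ℂ) (x : MU U) : tau U (c • x) = c * tau U x := by
  obtain ⟨x, rfl⟩ := mk_surjective U x
  rw [← map_smul]
  refine tendsto_nhds_unique (tendsto_tau U _) (((tendsto_tau U x).const_mul c).congr ?_)
  intro n
  change c * ntr (term x n) = ntr (c • term x n)
  simp only [ntr, trace_smul, smul_eq_mul, mul_div_assoc]

/-- the trace as a linear map -/
noncomputable def tauL (U : Ultrafilter ℕ) : MU U →ₗ[ℂ] ℂ where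
  toFun := tau U
  map_add' := tau_add
  map_smul' := tau_smul

theorem tau_sub (x y : MU U) : tau U (x - y) = tau U x - tau U y := (tauL U).map_sub x y

theorem tau_sum {ι : Type} (s : Finset ι) (f : ι → MU U) :
    tau U (∑ i ∈ s, f i) = ∑ i ∈ s, tau U (f i) := map_sum (tauL U) f s

theorem nrm_nonneg (x : MU U) : 0 ≤ nrm U x := Real.sqrt_nonneg _

theorem tau_re_nonneg (x : MU U) : 0 ≤ (tau U (star x * x)).re := by
  obtain ⟨x, rfl⟩ := mk_surjective U x
  have h := tendsto_tau U (star x * x)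
  rw [map_mul, ← star_mk] at h
  have h2 := Complex.continuous_re.continuousAt.tendsto.comp h
  refine ge_of_tendsto' h2 fun n => ?_
  change 0 ≤ (ntr (star (term x n) * term x n)).re
  rw [ntr, show ((n : ℂ)) = ((n : ℝ) : ℂ) by simp, Complex.div_ofReal_re,
    Matrix.star_eq_conjTranspose, trace_re_eq]
  positivity

theorem nrm_sq (x : MU U) : nrm U x ^ 2 = (tau U (star x * x)).re :=
  Real.sq_sqrt (tau_re_nonneg x)

theorem nrm_add_le (x y : MU U) : nrm U (x + y) ≤ nrm U x + nrm U y := by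
  obtain ⟨x, rfl⟩ := mk_surjective U x
  obtain ⟨y, rfl⟩ := mk_surjective U y
  rw [← map_add]
  exact le_of_tendsto_of_tendsto' (tendsto_nrm U _) ((tendsto_nrm U x).add (tendsto_nrm U y))
    fun n => twoNorm_add_le _ _

theorem nrm_smul (c : ℂ) (x : MU U) : nrm U (c • x) = ‖c‖ * nrm U x := by
  obtain ⟨x, rfl⟩ := mk_surjective U x
  rw [← map_smul]
  refine tendsto_nhds_unique (tendsto_nrm U _) (((tendsto_nrm U x).const_mul ‖c‖).congr ?_)
  intro n
  exact (twoNorm_smul c _).symm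

theorem nrm_star (x : MU U) : nrm U (star x) = nrm U x := by
  obtain ⟨x, rfl⟩ := mk_surjective U x
  rw [star_mk]
  refine tendsto_nhds_unique (tendsto_nrm U _) ((tendsto_nrm U x).congr ?_)
  intro n
  exact (twoNorm_star _).symm

theorem eq_zero_of_nrm {x : MU U} (h : nrm U x = 0) : x = 0 := by
  obtain ⟨x, rfl⟩ := mk_surjective U x
  rw [mk_eq_zero_iff, ← h]
  exact tendsto_nrm U x

theorem nrm_one_le : nrm U 1 ≤ 1 := by
  rw [← map_one (mk U)]
  exact le_of_tendsto' (tendsto_nrm U 1) fun n => twoNorm_one_le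

theorem norm_tau_star_mul_le (x y : MU U) : ‖tau U (star x * y)‖ ≤ nrm U x * nrm U y := by
  obtain ⟨x, rfl⟩ := mk_surjective U x
  obtain ⟨y, rfl⟩ := mk_surjective U y
  rw [star_mk, ← map_mul]
  exact le_of_tendsto_of_tendsto' (tendsto_tau U _).norm ((tendsto_nrm U x).mul (tendsto_nrm U y))
    fun n => norm_ntr_mul_le _ _

theorem norm_tau_mul_le (x y : MU U) : ‖tau U (x * y)‖ ≤ nrm U x * nrm U y := by
  have h := norm_tau_star_mul_le (star x) y
  rwa [star_star, nrm_star] at h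

/-- an element whose modulus squared is a projection is a contraction for the 2-norm -/
theorem nrm_mul_le_of_proj {u q : MU U} (hu : star u * u = q) (hq : q * q = q) (y : MU U) :
    nrm U (u * y) ≤ nrm U y := by
  have hs : star q = q := by rw [← hu, star_mul, star_star]
  refine (pow_le_pow_iff_left₀ (nrm_nonneg _) (nrm_nonneg _) two_ne_zero).1 ?_
  have h1 : star y * y = star (u * y) * (u * y) + star (y - q * y) * (y - q * y) := by
    have e1 : star (u * y) * (u * y) = star y * q * y := by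
      rw [star_mul, ← hu]; simp only [mul_assoc]
    have e2 : star (y - q * y) * (y - q * y) = star y * y - star y * q * y := by
      rw [star_sub, star_mul, hs]
      have : star y * q * (q * y) = star y * q * y := by
        rw [mul_assoc, ← mul_assoc q, hq, mul_assoc]
      simp only [mul_sub, sub_mul, this, mul_assoc]
      abel
    rw [e1, e2]; abel
  rw [nrm_sq, nrm_sq, h1, tau_add, Complex.add_re]
  linarith [tau_re_nonneg (y - q * y)]

theorem nrm_mul_le_of_proj' {u q : MU U} (hu : u * star u = q) (hq : q * q = q) (y : MU U) :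
    nrm U (y * u) ≤ nrm U y := by
  rw [← nrm_star, star_mul, ← nrm_star y]
  exact nrm_mul_le_of_proj (by rwa [star_star]) hq _

theorem one_mem_SU : (1 : MU U) ∈ SU U :=
  ⟨fun _ => 1, 1, fun _ => permMatrix_one.symm, map_one _⟩

theorem mul_mem_SU {x y : MU U} (hx : x ∈ SU U) (hy : y ∈ SU U) : x * y ∈ SU U := by
  obtain ⟨σ, z, hz, rfl⟩ := hx
  obtain ⟨τ, w, hw, rfl⟩ := hy
  refine ⟨fun n => τ n * σ n, z * w, fun n => ?_, map_mul _ _ _⟩
  rw [permMatrix_mul, ← hz, ← hw]
  rfl

theorem star_mem_SU {x : MU U} (hx : x ∈ SU U) : star x ∈ SU U := by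
  obtain ⟨σ, z, hz, rfl⟩ := hx
  refine ⟨fun n => (σ n)⁻¹, star z, fun n => ?_, (star_mk _ _).symm⟩
  rw [← conjTranspose_permMatrix, ← hz]
  rfl

theorem star_mul_self_of_mem_SU {x : MU U} (hx : x ∈ SU U) : star x * x = 1 := by
  obtain ⟨σ, z, hz, rfl⟩ := hx
  rw [star_mk, ← map_mul, ← map_one (mk U)]
  congr 1
  refine Subtype.ext ?_
  funext n
  change (term z n)ᴴ * term z n = 1
  rw [hz, conjTranspose_permMatrix, ← permMatrix_mul, mul_inv_cancel, permMatrix_one]

theorem exists_approx {x : MU U} (hx : x ∈ WS U) {ε : ℝ} (hε : 0 < ε) :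
    ∃ y ∈ StarAlgebra.adjoin ℂ (SU U), nrm U (x - y) ≤ ε := by
  obtain ⟨y, hy, z, hz, h⟩ := hx ε hε
  refine ⟨y, hy, ?_⟩
  rw [← hz]
  exact le_of_tendsto (tendsto_nrm U z) (h.mono fun n hn => hn.le)

end Pool.Agent.MP_9e3e49_an.H51
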