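import Mathlib
import Pool.Agent.MP_9e3e49_an.H51.Trace
import Pool.Agent.MP_9e3e49_an.H51.Khin

/-! A random sign conjugate of a flat bipartite matrix is almost orthogonal to all
permutations. -/

namespace Pool.Agent.MP_9e3e49_an.H51

open Filter Topology Matrix

/-- signs on a disjoint union -/
noncomputable def sg2 {α β : Type} [DecidableEq α] [DecidableEq β] (T : Finset α × Finset β) :
    α ⊕ β → ℂ := Sum.elim (sg T.1) (sg T.2)

section
variable {α β : Type} [Fintype α] [Fintype β] [DecidableEq α] [DecidableEq β]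

theorem chaos_bip (a c : α ⊕ β → α ⊕ β → ℂ) (μ : ℝ)
    (h1 : ∀ x y, a (Sum.inl x) (Sum.inl y) = 0) (h2 : ∀ x y, a (Sum.inr x) (Sum.inr y) = 0)
    (h3 : ∀ x y, ‖a x y‖ ^ 2 ≤ μ) (h4 : ∑ x, ∑ y, ‖c x y‖ ^ 2 ≤ 4) (hμ : 0 ≤ μ) :
    ∑ T : Finset α × Finset β, ‖∑ x, ∑ y, sg2 T x * sg2 T y * a x y * c x y‖ ^ 4 ≤
      Fintype.card (Finset α × Finset β) * (144 * μ ^ 2 * ∑ x, ∑ y, ‖c x y‖ ^ 2) := by
  have h := chaos4 (fun x y => a (Sum.inl x) (Sum.inr y) * c (Sum.inl x) (Sum.inr y) +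
    a (Sum.inr y) (Sum.inl x) * c (Sum.inr y) (Sum.inl x))
  refine le_trans (le_of_eq ?_) (h.trans ?_)
  · refine Finset.sum_congr rfl fun T _ => ?_
    congr 2
    simp only [Fintype.sum_sum_type, h1, h2, sg2, Sum.elim_inl, Sum.elim_inr, mul_zero, zero_mul,
      Finset.sum_const_zero, zero_add, add_zero]
    rw [Finset.sum_comm (f := fun y x => sg T.2 y * sg T.1 x * a (Sum.inr y) (Sum.inl x) *
      c (Sum.inr y) (Sum.inl x)), ← Finset.sum_add_distrib]
    refine Finset.sum_congr rfl fun x _ => ?_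
    rw [← Finset.sum_add_distrib]
    refine Finset.sum_congr rfl fun y _ => ?_
    ring
  · set s := ∑ x, ∑ y, ‖c x y‖ ^ 2 with hs
    have hs0 : 0 ≤ s := by positivity
    have h5 : ∑ x, ∑ y, ‖a (Sum.inl x) (Sum.inr y) * c (Sum.inl x) (Sum.inr y) +
        a (Sum.inr y) (Sum.inl x) * c (Sum.inr y) (Sum.inl x)‖ ^ 2 ≤ 2 * μ * s := by
      have h6 : ∀ x y, ‖a (Sum.inl x) (Sum.inr y) * c (Sum.inl x) (Sum.inr y) +
          a (Sum.inr y) (Sum.inl x) * c (Sum.inr y) (Sum.inl x)‖ ^ 2 ≤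
          2 * μ * (‖c (Sum.inl x) (Sum.inr y)‖ ^ 2 + ‖c (Sum.inr y) (Sum.inl x)‖ ^ 2) := by
        intro x y
        have e1 := norm_add_le (a (Sum.inl x) (Sum.inr y) * c (Sum.inl x) (Sum.inr y))
          (a (Sum.inr y) (Sum.inl x) * c (Sum.inr y) (Sum.inl x))
        have e2 := pow_le_pow_left₀ (norm_nonneg _) e1 2
        rw [norm_mul, norm_mul] at e2
        have e3 := mul_le_mul_of_nonneg_right (h3 (Sum.inl x) (Sum.inr y))
          (sq_nonneg ‖c (Sum.inl x) (Sum.inr y)‖)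
        have e4 := mul_le_mul_of_nonneg_right (h3 (Sum.inr y) (Sum.inl x))
          (sq_nonneg ‖c (Sum.inr y) (Sum.inl x)‖)
        nlinarith [sq_nonneg (‖a (Sum.inl x) (Sum.inr y)‖ * ‖c (Sum.inl x) (Sum.inr y)‖ -
          ‖a (Sum.inr y) (Sum.inl x)‖ * ‖c (Sum.inr y) (Sum.inl x)‖)]
      refine (Finset.sum_le_sum fun x _ => Finset.sum_le_sum fun y _ => h6 x y).trans ?_
      simp only [← Finset.mul_sum]
      refine mul_le_mul_of_nonneg_left ?_ (by positivity)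
      rw [hs]
      simp only [Fintype.sum_sum_type, Finset.sum_add_distrib]
      rw [Finset.sum_comm (f := fun x y => ‖c (Sum.inr y) (Sum.inl x)‖ ^ 2)]
      have : 0 ≤ ∑ x, ∑ y, ‖c (Sum.inl x) (Sum.inl y)‖ ^ 2 := by positivity
      have : 0 ≤ ∑ x, ∑ y, ‖c (Sum.inr x) (Sum.inr y)‖ ^ 2 := by positivity
      linarith
    have h7 := pow_le_pow_left₀ (by positivity) h5 2
    have h8 : (2 * μ * s) ^ 2 ≤ 16 * μ ^ 2 * s := by
      have : s ^ 2 ≤ 4 * s := by nlinarith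
      have := mul_le_mul_of_nonneg_left this (sq_nonneg μ)
      nlinarith
    have h9 := mul_le_mul_of_nonneg_left (h7.trans h8)
      (show (0 : ℝ) ≤ 9 * Fintype.card (Finset α × Finset β) by positivity)
    refine h9.trans (le_of_eq ?_)
    ring

end

theorem card_bad_le {n : ℕ} (R : Matrix (Fin n) (Fin n) ℂ) (hR : Rᴴ = R) :
    ((Finset.univ.filter fun i => 2 < (R i i).re).card : ℝ) / n ≤ twoNorm (R * R - R) ^ 2 := by
  rw [twoNorm_sq]
  refine div_le_div_of_nonneg_right ?_ (by positivity)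
  rw [Finset.card_eq_sum_ones, Nat.cast_sum]
  refine le_trans (Finset.sum_le_sum fun i hi => ?_)
    (Finset.sum_le_sum_of_subset_of_nonneg (Finset.filter_subset _ _) fun i _ _ => by positivity)
  have hi' : 2 < (R i i).re := (Finset.mem_filter.1 hi).2
  refine le_trans ?_ (Finset.single_le_sum (f := fun j => ‖(R * R - R) i j‖ ^ 2)
    (fun j _ => by positivity) (Finset.mem_univ i))
  have e1 : ((R * R) i i).re = ∑ t, ‖R i t‖ ^ 2 := by
    rw [Matrix.mul_apply, Complex.re_sum]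
    refine Finset.sum_congr rfl fun t _ => ?_
    have : R t i = star (R i t) := by rw [← Matrix.conjTranspose_apply, hR]
    rw [this, Complex.star_def, Complex.mul_conj']
    norm_cast
  have e2 : ‖R i i‖ ^ 2 ≤ ∑ t, ‖R i t‖ ^ 2 :=
    Finset.single_le_sum (f := fun t => ‖R i t‖ ^ 2) (fun j _ => by positivity)
      (Finset.mem_univ i)
  have e3 : (R i i).re ≤ ‖R i i‖ := Complex.re_le_norm _
  have e4 : ((R * R - R) i i).re ≤ ‖(R * R - R) i i‖ := Complex.re_le_norm _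
  rw [Matrix.sub_apply, Complex.sub_re, e1] at e4
  have e5 : (1 : ℝ) ≤ ‖(R * R - R) i i‖ := by
    rw [Matrix.sub_apply]
    nlinarith
  simpa using one_le_pow₀ (n := 2) e5

theorem ntr_perm_le {n : ℕ} (Z : Matrix (Fin n) (Fin n) ℂ) (G G' : Finset (Fin n))
    (σ : Equiv.Perm (Fin n)) (t b b' : ℝ) (ht : 0 ≤ t) (hb : 0 ≤ b) (hb' : 0 ≤ b')
    (h1 : (∑ i ∈ G, ∑ j ∈ G', ‖Z i j‖ ^ 4) / n ≤ t ^ 4)
    (h2 : ((Gᶜ).card : ℝ) / n ≤ b ^ 2) (h3 : ((G'ᶜ).card : ℝ) / n ≤ b' ^ 2) :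
    ‖ntr (σ.permMatrix ℂ * Z)‖ ≤ t + (b + b') * twoNorm Z := by
  rcases Nat.eq_zero_or_pos n with rfl | hn
  · have := twoNorm_nonneg Z
    simp only [ntr, CharP.cast_eq_zero, div_zero, norm_zero]
    positivity
  have hn' : (0 : ℝ) < n := by exact_mod_cast hn
  have e0 : (σ.permMatrix ℂ * Z).trace = ∑ i, Z (σ i) i := by
    simp [Matrix.trace, PEquiv.toMatrix_toPEquiv_mul]
  set B := Finset.univ.filter fun i => σ i ∈ G ∧ i ∈ G' with hB
  have e1 : ‖ntr (σ.permMatrix ℂ * Z)‖ ≤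
      (∑ i ∈ B, ‖Z (σ i) i‖) / n + (∑ i ∈ Bᶜ, ‖Z (σ i) i‖) / n := by
    rw [ntr, norm_div, Complex.norm_natCast, e0, ← add_div, Finset.sum_add_sum_compl]
    exact div_le_div_of_nonneg_right (norm_sum_le _ _) hn'.le
  refine e1.trans (add_le_add ?_ ?_)
  · refine (pow_le_pow_iff_left₀ (by positivity) ht (show 4 ≠ 0 by norm_num)).1 (le_trans ?_ h1)
    have e2 : (∑ i ∈ B, ‖Z (σ i) i‖) ^ 4 ≤ (n : ℝ) ^ 3 * ∑ i ∈ B, ‖Z (σ i) i‖ ^ 4 := by
      have h := pow_sum_le_card_mul_sum_pow (s := B) (f := fun i => ‖Z (σ i) i‖)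
        (fun i _ => norm_nonneg _) 3
      refine h.trans (mul_le_mul_of_nonneg_right ?_ (by positivity))
      refine pow_le_pow_left₀ (by positivity) ?_ 3
      exact_mod_cast (Finset.card_le_univ B).trans (le_of_eq (Fintype.card_fin n))
    have e3 : ∑ i ∈ B, ‖Z (σ i) i‖ ^ 4 ≤ ∑ i ∈ G, ∑ j ∈ G', ‖Z i j‖ ^ 4 := by
      rw [Finset.sum_comm]
      have hsub : B ⊆ G' := fun i hi => (Finset.mem_filter.1 hi).2.2
      refine le_trans (Finset.sum_le_sum fun i hi => ?_)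
        (Finset.sum_le_sum_of_subset_of_nonneg hsub fun i _ _ => by positivity)
      exact Finset.single_le_sum (f := fun j => ‖Z j i‖ ^ 4) (fun j _ => by positivity)
        (Finset.mem_filter.1 hi).2.1
    rw [div_pow, div_le_div_iff₀ (by positivity) hn']
    have e4 := mul_le_mul_of_nonneg_left e3 (show (0 : ℝ) ≤ (n : ℝ) ^ 3 by positivity)
    nlinarith [mul_le_mul_of_nonneg_right (e2.trans e4) hn'.le]
  · refine (pow_le_pow_iff_left₀ (by positivity) (mul_nonneg (by positivity) (twoNorm_nonneg _))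
      two_ne_zero).1 ?_
    have e2 : (∑ i ∈ Bᶜ, ‖Z (σ i) i‖) ^ 2 ≤ (Bᶜ).card * ∑ i ∈ Bᶜ, ‖Z (σ i) i‖ ^ 2 :=
      sq_sum_le_card_mul_sum_sq
    have e3 : ∑ i ∈ Bᶜ, ‖Z (σ i) i‖ ^ 2 ≤ ∑ i, ∑ j, ‖Z i j‖ ^ 2 := by
      rw [Finset.sum_comm]
      refine le_trans (Finset.sum_le_sum fun i _ => ?_)
        (Finset.sum_le_sum_of_subset_of_nonneg (Finset.subset_univ _) fun i _ _ => by positivity)
      exact Finset.single_le_sum (f := fun j => ‖Z j i‖ ^ 2) (fun j _ => by positivity)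
        (Finset.mem_univ _)
    have e4 : (Bᶜ).card ≤ (Gᶜ).card + (G'ᶜ).card := by
      have : Bᶜ ⊆ (Gᶜ).map σ.symm.toEmbedding ∪ G'ᶜ := by
        intro i hi
        simp only [hB, Finset.mem_compl, Finset.mem_filter, Finset.mem_univ, true_and,
          not_and_or] at hi
        simpa using hi
      refine (Finset.card_le_card this).trans ((Finset.card_union_le _ _).trans ?_)
      rw [Finset.card_map]
    have e5 : ((Bᶜ).card : ℝ) / n ≤ (b + b') ^ 2 := by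
      have e6 : ((Bᶜ).card : ℝ) ≤ (Gᶜ).card + (G'ᶜ).card := by exact_mod_cast e4
      have e7 := div_le_div_of_nonneg_right e6 hn'.le
      rw [add_div] at e7
      nlinarith [mul_nonneg hb hb']
    rw [mul_pow, twoNorm_sq]
    calc ((∑ i ∈ Bᶜ, ‖Z (σ i) i‖) / n) ^ 2
        ≤ ((Bᶜ).card / n) * ((∑ i, ∑ j, ‖Z i j‖ ^ 2) / n) := by
          rw [div_pow, div_mul_div_comm, ← sq]
          exact div_le_div_of_nonneg_right
            (e2.trans (mul_le_mul_of_nonneg_left e3 (by positivity))) (by positivity)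
      _ ≤ _ := mul_le_mul_of_nonneg_right e5 (by positivity)

end Pool.Agent.MP_9e3e49_an.H51
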