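import Mathlib
import Pool.Agent.MP_9e3e49_an.H51.Spread

/-! The spreading lemma at finite level and in the ultraproduct. -/

namespace Pool.Agent.MP_9e3e49_an.H51

open Filter Topology Matrix

variable {α β : Type} [Fintype α] [Fintype β] [DecidableEq α] [DecidableEq β]

theorem spread_fin {n : ℕ} (a : α ⊕ β → α ⊕ β → ℂ) (μ : ℝ)
    (h1 : ∀ x y, a (Sum.inl x) (Sum.inl y) = 0) (h2 : ∀ x y, a (Sum.inr x) (Sum.inr y) = 0)
    (h3 : ∀ x y, ‖a x y‖ ^ 2 ≤ μ) (hμ : 0 ≤ μ) (V W : α ⊕ β → Matrix (Fin n) (Fin n) ℂ) :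
    ∃ T : Finset α × Finset β, ∀ (σ : Equiv.Perm (Fin n)) (t : ℝ), 0 ≤ t →
      144 * μ ^ 2 * ∑ x, ∑ y, twoNorm (V x * W y) ^ 2 ≤ t ^ 4 →
      ‖ntr (σ.permMatrix ℂ * ∑ x, ∑ y, (sg2 T x * sg2 T y * a x y) • (V x * W y))‖ ≤
        t + (twoNorm ((∑ x, V x * star (V x)) * (∑ x, V x * star (V x)) - ∑ x, V x * star (V x)) +
          twoNorm ((∑ x, star (W x) * W x) * (∑ x, star (W x) * W x) - ∑ x, star (W x) * W x)) *
          twoNorm (∑ x, ∑ y, (sg2 T x * sg2 T y * a x y) • (V x * W y)) := by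
  set R := ∑ x, V x * star (V x) with hR
  set R' := ∑ x, star (W x) * W x with hR'
  have hRs : Rᴴ = R := by
    rw [← Matrix.star_eq_conjTranspose, hR, star_sum]
    simp only [star_mul, star_star]
  have hRs' : R'ᴴ = R' := by
    rw [← Matrix.star_eq_conjTranspose, hR', star_sum]
    simp only [star_mul, star_star]
  have hRi : ∀ i, (R i i).re = ∑ x, ∑ t, ‖V x i t‖ ^ 2 := by
    intro i
    rw [hR, Matrix.sum_apply, Complex.re_sum]
    refine Finset.sum_congr rfl fun x _ => ?_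
    rw [Matrix.mul_apply, Complex.re_sum]
    refine Finset.sum_congr rfl fun t _ => ?_
    rw [Matrix.star_apply, Complex.star_def, Complex.mul_conj']
    norm_cast
  have hRi' : ∀ i, (R' i i).re = ∑ x, ∑ t, ‖W x t i‖ ^ 2 := by
    intro i
    rw [hR', Matrix.sum_apply, Complex.re_sum]
    refine Finset.sum_congr rfl fun x _ => ?_
    rw [Matrix.mul_apply, Complex.re_sum]
    refine Finset.sum_congr rfl fun t _ => ?_
    rw [Matrix.star_apply, Complex.star_def, Complex.conj_mul']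
    norm_cast
  set G := (Finset.univ.filter fun i => 2 < (R i i).re)ᶜ with hG
  set G' := (Finset.univ.filter fun i => 2 < (R' i i).re)ᶜ with hG'
  set Z : Finset α × Finset β → Matrix (Fin n) (Fin n) ℂ :=
    fun T => ∑ x, ∑ y, (sg2 T x * sg2 T y * a x y) • (V x * W y) with hZ
  set B := 144 * μ ^ 2 * ∑ i, ∑ j, ∑ x, ∑ y, ‖(V x * W y) i j‖ ^ 2 with hB
  have key : ∑ T, ∑ i ∈ G, ∑ j ∈ G', ‖Z T i j‖ ^ 4 ≤ ∑ _T : Finset α × Finset β, B := by
    rw [Finset.sum_comm]
    simp_rw [Finset.sum_comm (s := (Finset.univ : Finset (Finset α × Finset β)))]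
    have hij : ∀ i ∈ G, ∀ j ∈ G', ∑ T, ‖Z T i j‖ ^ 4 ≤ Fintype.card (Finset α × Finset β) *
        (144 * μ ^ 2 * ∑ x, ∑ y, ‖(V x * W y) i j‖ ^ 2) := by
      intro i hi j hj
      have hi2 : ∑ x, ∑ t, ‖V x i t‖ ^ 2 ≤ 2 := by
        rw [← hRi]; simpa [hG] using hi
      have hj2 : ∑ x, ∑ t, ‖W x t j‖ ^ 2 ≤ 2 := by
        rw [← hRi']; simpa [hG'] using hj
      have h4 : ∑ x, ∑ y, ‖(V x * W y) i j‖ ^ 2 ≤ 4 := by
        have h5 : ∀ x y, ‖(V x * W y) i j‖ ^ 2 ≤ (∑ t, ‖V x i t‖ ^ 2) * ∑ t, ‖W y t j‖ ^ 2 := by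
          intro x y
          rw [Matrix.mul_apply]
          refine le_trans (pow_le_pow_left₀ (norm_nonneg _) (norm_sum_le _ _) 2) ?_
          simp only [norm_mul]
          exact Finset.sum_mul_sq_le_sq_mul_sq _ _ _
        refine (Finset.sum_le_sum fun x _ => Finset.sum_le_sum fun y _ => h5 x y).trans ?_
        rw [← Finset.sum_mul_sum]
        have := mul_le_mul hi2 hj2 (by positivity) (by norm_num)
        linarith
      have h := chaos_bip a (fun x y => (V x * W y) i j) μ h1 h2 h3 h4 hμ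
      refine le_trans (le_of_eq ?_) h
      refine Finset.sum_congr rfl fun T _ => ?_
      simp only [hZ, Matrix.sum_apply, Matrix.smul_apply, smul_eq_mul]
    refine (Finset.sum_le_sum fun i hi => Finset.sum_le_sum fun j hj => hij i hi j hj).trans ?_
    rw [Finset.sum_const, Finset.card_univ, nsmul_eq_mul, hB]
    simp only [← Finset.mul_sum]
    refine mul_le_mul_of_nonneg_left (mul_le_mul_of_nonneg_left ?_ (by positivity)) (by positivity)
    refine le_trans (Finset.sum_le_sum fun i _ => ?_)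
      (Finset.sum_le_sum_of_subset_of_nonneg (Finset.subset_univ _) fun i _ _ => by positivity)
    exact Finset.sum_le_sum_of_subset_of_nonneg (Finset.subset_univ _) fun i _ _ => by positivity
  obtain ⟨T, -, hT⟩ := Finset.exists_le_of_sum_le Finset.univ_nonempty key
  refine ⟨T, fun σ t ht hb => ?_⟩
  refine ntr_perm_le (Z T) G G' σ t _ _ ht (twoNorm_nonneg _) (twoNorm_nonneg _) ?_ ?_ ?_
  · refine le_trans (div_le_div_of_nonneg_right hT (by positivity)) (le_trans (le_of_eq ?_) hb)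
    rw [hB, mul_div_assoc]
    congr 1
    simp only [twoNorm_sq, ← Finset.sum_div]
    congr 1
    simp_rw [Finset.sum_comm (s := (Finset.univ : Finset (Fin n)))
      (t := (Finset.univ : Finset (α ⊕ β)))]
  · rw [hG, compl_compl]; exact card_bad_le R hRs
  · rw [hG', compl_compl]; exact card_bad_le R' hRs'

theorem coe_sum_apply {ι : Type} (s : Finset ι) (f : ι → Bdd) (n : ℕ) :
    term (∑ i ∈ s, f i) n = ∑ i ∈ s, term (f i) n := by
  classical
  induction s using Finset.induction_on with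
  | empty => rfl
  | insert a s ha ih => rw [Finset.sum_insert ha, Finset.sum_insert ha, ← ih]; rfl

theorem spread {U : Ultrafilter ℕ} (a : α ⊕ β → α ⊕ β → ℂ) (μ : ℝ)
    (h1 : ∀ x y, a (Sum.inl x) (Sum.inl y) = 0) (h2 : ∀ x y, a (Sum.inr x) (Sum.inr y) = 0)
    (h3 : ∀ x y, ‖a x y‖ ^ 2 ≤ μ) (hμ : 0 ≤ μ) (v w : α ⊕ β → MU U)
    (hv : (∑ x, v x * star (v x)) * (∑ x, v x * star (v x)) = ∑ x, v x * star (v x))
    (hw : (∑ x, star (w x) * w x) * (∑ x, star (w x) * w x) = ∑ x, star (w x) * w x)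
    (t : ℝ) (ht : 0 ≤ t) (hb : 144 * μ ^ 2 * ∑ x, ∑ y, nrm U (v x * w y) ^ 2 < t ^ 4) :
    ∃ T : Finset α × Finset β, ∀ s ∈ SU U,
      ‖tau U (s * ∑ x, ∑ y, (sg2 T x * sg2 T y * a x y) • (v x * w y))‖ ≤ t := by
  choose V hV using fun x => mk_surjective U (v x)
  choose W hW using fun x => mk_surjective U (w x)
  choose T hT using fun n => spread_fin a μ h1 h2 h3 hμ (fun x => term (V x) n) (fun x => term (W x) n)
  obtain ⟨T0, hT0⟩ : ∃ T0, ∀ᶠ n in (U : Filter ℕ), T n = T0 := by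
    obtain ⟨T0, h⟩ := (U.map T).eq_pure_of_finite
    refine ⟨T0, ?_⟩
    have : {T0} ∈ U.map T := by rw [h]; simp
    exact this
  refine ⟨T0, ?_⟩
  rintro s ⟨σ, P, hP, rfl⟩
  set Z : Bdd := ∑ x, ∑ y, (sg2 T0 x * sg2 T0 y * a x y) • (V x * W y) with hZ
  have hZ1 : mk U Z = ∑ x, ∑ y, (sg2 T0 x * sg2 T0 y * a x y) • (v x * w y) := by
    simp only [hZ, map_sum, map_smul, map_mul, hV, hW]
  have hZ2 : ∀ n, term Z n =
      ∑ x, ∑ y, (sg2 T0 x * sg2 T0 y * a x y) • (term (V x) n * term (W y) n) := by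
    intro n
    simp only [hZ, coe_sum_apply]
    rfl
  set R : Bdd := ∑ x, V x * star (V x) with hR
  set R' : Bdd := ∑ x, star (W x) * W x with hR'
  have hR1 : mk U R = ∑ x, v x * star (v x) := by
    simp only [hR, map_sum, map_mul, ← star_mk, hV]
  have hR1' : mk U R' = ∑ x, star (w x) * w x := by
    simp only [hR', map_sum, map_mul, ← star_mk, hW]
  have hR2 : ∀ n, term R n = ∑ x, term (V x) n * star (term (V x) n) := by
    intro n
    simp only [hR, coe_sum_apply]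
    rfl
  have hR2' : ∀ n, term R' n = ∑ x, star (term (W x) n) * term (W x) n := by
    intro n
    simp only [hR', coe_sum_apply]
    rfl
  have hR3 : Tendsto (fun n => twoNorm (term R n * term R n - term R n)) U (𝓝 0) := by
    refine (mk_eq_mk_iff U (R * R) R).1 ?_
    rw [map_mul, hR1, hv]
  have hR3' : Tendsto (fun n => twoNorm (term R' n * term R' n - term R' n)) U (𝓝 0) := by
    refine (mk_eq_mk_iff U (R' * R') R').1 ?_
    rw [map_mul, hR1', hw]
  have hlim : Tendsto (fun n => 144 * μ ^ 2 * ∑ x, ∑ y, twoNorm (term (V x) n * term (W y) n) ^ 2) U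
      (𝓝 (144 * μ ^ 2 * ∑ x, ∑ y, nrm U (v x * w y) ^ 2)) := by
    refine Tendsto.const_mul _ (tendsto_finsetSum _ fun x _ => tendsto_finsetSum _ fun y _ => ?_)
    have h := tendsto_nrm U (V x * W y)
    rw [map_mul, hV, hW] at h
    exact h.pow 2
  have hev := hlim.eventually (gt_mem_nhds hb)
  have hl1 := (tendsto_tau U (P * Z)).norm
  have hl2 := ((hR3.add hR3').mul (tendsto_nrm U Z)).const_add t
  rw [add_zero, zero_mul, add_zero] at hl2
  rw [← hZ1, ← map_mul]
  refine le_of_tendsto_of_tendsto hl1 hl2 ?_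
  filter_upwards [hT0, hev] with n hn1 hn2
  have h := hT n (σ n) t ht hn2.le
  rw [hn1, ← hZ2, ← hR2, ← hR2', ← hP] at h
  exact h

end Pool.Agent.MP_9e3e49_an.H51
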