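import Mathlib
import Pool.Agent.MP_9e3e49_an.H51.Spread2

/-! Infinite tensor products of matrices inside a matrix ultraproduct. -/

namespace Pool.Agent.MP_9e3e49_an.H51

open Filter Topology Matrix
open scoped Kronecker

set_option linter.unusedSectionVars false

/-- finite tensor product of matrices -/
noncomputable def tens {ι : Type} [Fintype ι] {Ω : ι → Type} (b : ∀ j, Matrix (Ω j) (Ω j) ℂ) :
    Matrix (∀ j, Ω j) (∀ j, Ω j) ℂ := Matrix.of fun ω ω' => ∏ j, b j (ω j) (ω' j)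

section
variable {ι : Type} [Fintype ι] [DecidableEq ι] {Ω : ι → Type}

theorem tens_mul [∀ j, Fintype (Ω j)] (b c : ∀ j, Matrix (Ω j) (Ω j) ℂ) :
    tens b * tens c = tens (fun j => b j * c j) := by
  ext ω ω'
  simp only [tens, Matrix.mul_apply, Matrix.of_apply, ← Finset.prod_mul_distrib]
  rw [Finset.prod_univ_sum, Fintype.piFinset_univ]

omit [DecidableEq ι] in
theorem tens_star (b : ∀ j, Matrix (Ω j) (Ω j) ℂ) :
    star (tens b) = tens (fun j => star (b j)) := by
  ext ω ω'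
  simp [tens, Matrix.star_apply]

omit [DecidableEq ι] in
theorem tens_one [∀ j, DecidableEq (Ω j)] :
    tens (fun j => (1 : Matrix (Ω j) (Ω j) ℂ)) = 1 := by
  ext ω ω'
  simp only [tens, Matrix.of_apply, Matrix.one_apply]
  rw [Finset.prod_ite_zero]
  simp [funext_iff]

end

section
variable (X : Type) [Fintype X] [DecidableEq X]

/-- a decomposition of `Fin n` -/
noncomputable def eqv (n : ℕ) :
    (X × Fin (n / Fintype.card X)) ⊕ Fin (n % Fintype.card X) ≃ Fin n :=
  Fintype.equivFinOfCardEq (by simp [Nat.div_add_mod])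

/-- amplification of a matrix to size `n`, with a zero corner -/
noncomputable def emb (n : ℕ) : Matrix X X ℂ →ₗ[ℂ] Matrix (Fin n) (Fin n) ℂ where
  toFun A := Matrix.reindex (eqv X n) (eqv X n)
    (Matrix.fromBlocks (A ⊗ₖ (1 : Matrix (Fin (n / Fintype.card X)) _ ℂ)) 0 0 0)
  map_add' A B := by
    ext i j
    obtain ⟨i, rfl⟩ := (eqv X n).surjective i
    obtain ⟨j, rfl⟩ := (eqv X n).surjective j
    rcases i with i | i <;> rcases j with j | j <;> simp [add_mul]
  map_smul' c A := by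
    ext i j
    obtain ⟨i, rfl⟩ := (eqv X n).surjective i
    obtain ⟨j, rfl⟩ := (eqv X n).surjective j
    rcases i with i | i <;> rcases j with j | j <;> simp [mul_assoc]

omit [DecidableEq X] in
theorem emb_apply (n : ℕ) (A : Matrix X X ℂ) : emb X n A = Matrix.reindex (eqv X n) (eqv X n)
    (Matrix.fromBlocks (A ⊗ₖ (1 : Matrix (Fin (n / Fintype.card X)) _ ℂ)) 0 0 0) := rfl

omit [DecidableEq X] in
theorem emb_mul (n : ℕ) (A B : Matrix X X ℂ) : emb X n A * emb X n B = emb X n (A * B) := by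
  simp only [emb_apply, Matrix.reindex_apply, Matrix.submatrix_mul_equiv,
    Matrix.fromBlocks_multiply, ← Matrix.mul_kronecker_mul, Matrix.mul_one, Matrix.mul_zero,
    Matrix.zero_mul, add_zero]

omit [DecidableEq X] in
theorem emb_star (n : ℕ) (A : Matrix X X ℂ) : star (emb X n A) = emb X n (star A) := by
  simp only [emb_apply, Matrix.star_eq_conjTranspose, Matrix.conjTranspose_reindex,
    Matrix.fromBlocks_conjTranspose, Matrix.conjTranspose_kronecker, Matrix.conjTranspose_one,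
    Matrix.conjTranspose_zero]

theorem twoNorm_emb_one (n : ℕ) :
    twoNorm (emb X n 1 - 1) ^ 2 = ((n % Fintype.card X : ℕ) : ℝ) / n := by
  rw [twoNorm_sq]
  congr 1
  rw [← (eqv X n).sum_comp]
  have h : ∀ i, ∑ j, ‖(emb X n 1 - 1 : Matrix (Fin n) (Fin n) ℂ) (eqv X n i) j‖ ^ 2 =
      Sum.elim (fun _ => (0 : ℝ)) (fun _ => 1) i := by
    intro i
    rw [← (eqv X n).sum_comp]
    rcases i with i | i <;>
      simp [emb_apply, Fintype.sum_sum_type, Matrix.one_apply, apply_ite norm]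
  simp only [h]
  simp [Fintype.sum_sum_type]

end

open scoped Matrix.Norms.L2Operator in
theorem opNorm_le_one {n : ℕ} {A : Matrix (Fin n) (Fin n) ℂ} (h : A * star A * A = A) :
    opNorm A ≤ 1 := by
  change ‖A‖ ≤ 1
  rw [Matrix.star_eq_conjTranspose] at h
  have h1 := Matrix.l2_opNorm_conjTranspose_mul_self A
  have h2 := Matrix.l2_opNorm_conjTranspose_mul_self (Aᴴ * A)
  have h3 : (Aᴴ * A)ᴴ * (Aᴴ * A) = Aᴴ * A := by
    rw [Matrix.conjTranspose_mul, Matrix.conjTranspose_conjTranspose, Matrix.mul_assoc,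
      ← Matrix.mul_assoc A, h]
  rw [h3, h1] at h2
  by_contra hc
  have h4 : 1 < ‖A‖ := not_le.1 hc
  have h5 : 1 < ‖A‖ * ‖A‖ := by nlinarith
  nlinarith

section
variable (Ω : ℕ → Type) [∀ j, Fintype (Ω j)] [∀ j, DecidableEq (Ω j)]

/-- number of tensor factors used at level `n` -/
noncomputable def kk (n : ℕ) : ℕ :=
  Nat.findGreatest (fun k => Fintype.card (∀ j : Fin k, Ω j) ^ 2 ≤ n) n

variable {Ω}

/-- the sequence of matrices representing an infinite tensor product -/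
noncomputable def Tseq (b : ∀ j, Matrix (Ω j) (Ω j) ℂ) : ∀ n : ℕ, Matrix (Fin n) (Fin n) ℂ :=
  fun n => emb (∀ j : Fin (kk Ω n), Ω j) n (tens fun j : Fin (kk Ω n) => b j)

theorem Tseq_mul (b c : ∀ j, Matrix (Ω j) (Ω j) ℂ) : Tseq b * Tseq c = Tseq (b * c) := by
  funext n
  simp only [Pi.mul_apply, Tseq, emb_mul, tens_mul]

theorem Tseq_star (b : ∀ j, Matrix (Ω j) (Ω j) ℂ) : star (Tseq b) = Tseq (star b) := by
  funext n
  simp only [Pi.star_apply, Tseq, emb_star, tens_star]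

theorem Tseq_mem {b : ∀ j, Matrix (Ω j) (Ω j) ℂ} (h : b * star b * b = b) : Tseq b ∈ BddAlg := by
  refine ⟨1, fun n => opNorm_le_one ?_⟩
  have := congrFun (show Tseq b * star (Tseq b) * Tseq b = Tseq b by
    rw [Tseq_star, Tseq_mul, Tseq_mul, h]) n
  exact this

theorem eventually_lt_kk (j : ℕ) : ∀ᶠ n in atTop, j < kk Ω n := by
  filter_upwards [eventually_ge_atTop (j + 1),
    eventually_ge_atTop (Fintype.card (∀ i : Fin (j + 1), Ω i) ^ 2)] with n h1 h2
  exact Nat.le_findGreatest (P := fun k => Fintype.card (∀ j : Fin k, Ω j) ^ 2 ≤ n) h1 h2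

theorem Tseq_update_sum {κ : Type} [Fintype κ] (b : ∀ j, Matrix (Ω j) (Ω j) ℂ) (j : ℕ)
    (c : κ → ℂ) (B : κ → Matrix (Ω j) (Ω j) ℂ) {n : ℕ} (hn : j < kk Ω n) :
    Tseq (Function.update b j (∑ i, c i • B i)) n =
      ∑ i, c i • Tseq (Function.update b j (B i)) n := by
  simp only [Tseq, ← map_smul, ← map_sum]
  congr 1
  have key : ∀ (C : Matrix (Ω j) (Ω j) ℂ) (ω ω' : ∀ i : Fin (kk Ω n), Ω i),
      tens (fun i : Fin (kk Ω n) => Function.update b j C i) ω ω' =
        C (ω ⟨j, hn⟩) (ω' ⟨j, hn⟩) *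
          ∏ i ∈ Finset.univ.erase (⟨j, hn⟩ : Fin (kk Ω n)), b i (ω i) (ω' i) := by
    intro C ω ω'
    simp only [tens, Matrix.of_apply]
    rw [← Finset.mul_prod_erase Finset.univ _ (Finset.mem_univ (⟨j, hn⟩ : Fin (kk Ω n)))]
    congr 1
    · simp
    · refine Finset.prod_congr rfl fun i hi => ?_
      rw [Function.update_of_ne]
      intro h
      exact (Finset.mem_erase.1 hi).1 (Fin.ext h)
  ext ω ω'
  simp only [key, Matrix.sum_apply, Matrix.smul_apply, smul_eq_mul, Finset.sum_mul, mul_assoc]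

theorem tendsto_Tseq_one [∀ j, Nonempty (Ω j)] :
    Tendsto (fun n => twoNorm (Tseq (1 : ∀ j, Matrix (Ω j) (Ω j) ℂ) n - 1)) atTop (𝓝 0) := by
  have h0 : Tendsto (fun n : ℕ => Real.sqrt (Real.sqrt (1 / (n : ℝ)))) atTop (𝓝 0) := by
    have := (Real.continuous_sqrt.comp Real.continuous_sqrt).continuousAt.tendsto.comp
      tendsto_one_div_atTop_nhds_zero_nat
    simpa [Function.comp_def] using this
  refine squeeze_zero' (Eventually.of_forall fun n => twoNorm_nonneg _) ?_ h0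
  filter_upwards [eventually_ge_atTop 1] with n hn
  refine Real.le_sqrt_of_sq_le (Real.le_sqrt_of_sq_le ?_)
  have e1 : Tseq (1 : ∀ j, Matrix (Ω j) (Ω j) ℂ) n = emb (∀ j : Fin (kk Ω n), Ω j) n 1 := by
    simp only [Tseq, Pi.one_apply, tens_one]
  rw [e1, twoNorm_emb_one]
  set D := Fintype.card (∀ j : Fin (kk Ω n), Ω j) with hD
  have h1 : D ^ 2 ≤ n := by
    refine Nat.findGreatest_spec (P := fun k => Fintype.card (∀ j : Fin k, Ω j) ^ 2 ≤ n)
      (Nat.zero_le n) ?_
    simpa using hn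
  have h2 : n % D < D := Nat.mod_lt _ Fintype.card_pos
  have h3 : (n % D) ^ 2 ≤ n := (Nat.pow_le_pow_left h2.le 2).trans h1
  have h4 : ((n % D : ℕ) : ℝ) ^ 2 ≤ n := by exact_mod_cast h3
  have hn' : (0 : ℝ) < n := by exact_mod_cast hn
  rw [div_pow, div_le_div_iff₀ (by positivity) hn']
  nlinarith

open Classical in
/-- the infinite tensor product, as an element of the ultraproduct -/
noncomputable def TT (V : Ultrafilter ℕ) (b : ∀ j, Matrix (Ω j) (Ω j) ℂ) : MU V :=
  if h : Tseq b ∈ BddAlg then mk V ⟨Tseq b, h⟩ else 0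

variable {V : Ultrafilter ℕ}

theorem TT_eq {b : ∀ j, Matrix (Ω j) (Ω j) ℂ} (h : Tseq b ∈ BddAlg) :
    TT V b = mk V ⟨Tseq b, h⟩ := dif_pos h

theorem TT_mul {b c : ∀ j, Matrix (Ω j) (Ω j) ℂ} (hb : b * star b * b = b)
    (hc : c * star c * c = c) : TT V b * TT V c = TT V (b * c) := by
  have h : Tseq (b * c) ∈ BddAlg := by
    rw [← Tseq_mul]; exact mul_mem (Tseq_mem hb) (Tseq_mem hc)
  rw [TT_eq (Tseq_mem hb), TT_eq (Tseq_mem hc), TT_eq h, ← map_mul]
  congr 1
  exact Subtype.ext (Tseq_mul b c)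

theorem TT_star {b : ∀ j, Matrix (Ω j) (Ω j) ℂ} (hb : b * star b * b = b) :
    star (TT V b) = TT V (star b) := by
  have h : Tseq (star b) ∈ BddAlg := by
    rw [← Tseq_star]; exact star_mem (Tseq_mem hb)
  rw [TT_eq (Tseq_mem hb), TT_eq h, star_mk]
  congr 1
  exact Subtype.ext (Tseq_star b)

theorem TT_one [∀ j, Nonempty (Ω j)] (hV : (V : Filter ℕ) ≤ cofinite) :
    TT V (1 : ∀ j, Matrix (Ω j) (Ω j) ℂ) = 1 := by
  rw [TT_eq (Tseq_mem (by simp)), ← map_one (mk V), mk_eq_mk_iff]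
  rw [Nat.cofinite_eq_atTop] at hV
  exact tendsto_Tseq_one.mono_left hV

theorem TT_update_sum (hV : (V : Filter ℕ) ≤ cofinite) {κ : Type} [Fintype κ]
    (b : ∀ j, Matrix (Ω j) (Ω j) ℂ) (j : ℕ) (c : κ → ℂ) (B : κ → Matrix (Ω j) (Ω j) ℂ)
    (h0 : Tseq (Function.update b j (∑ i, c i • B i)) ∈ BddAlg)
    (h : ∀ i, Tseq (Function.update b j (B i)) ∈ BddAlg) :
    TT V (Function.update b j (∑ i, c i • B i)) =
      ∑ i, c i • TT V (Function.update b j (B i)) := by
  rw [Nat.cofinite_eq_atTop] at hV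
  simp only [TT_eq h0, TT_eq (h _), ← map_smul, ← map_sum]
  rw [mk_eq_mk_iff]
  refine tendsto_const_nhds.congr' ?_
  filter_upwards [hV (eventually_lt_kk (Ω := Ω) j)] with n hn
  rw [coe_sum_apply]
  change 0 = twoNorm (Tseq (Function.update b j (∑ i, c i • B i)) n -
    ∑ i, c i • Tseq (Function.update b j (B i)) n)
  rw [Tseq_update_sum b j c B hn, sub_self]
  simp [twoNorm]

end

end Pool.Agent.MP_9e3e49_an.H51
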