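import Mathlib
import Pool.Agent.MP_9e3e49_an.H51.Tensor

/-! Approximation by combinations of permutations, the diagonal lemma, flat unitaries. -/

namespace Pool.Agent.MP_9e3e49_an.H51

open Filter Topology Matrix

variable {U : Ultrafilter ℕ}

/-- the properties of a combination of permutations with coefficient sum at most `L` -/
def BL (L : ℝ) (s : MU U) : Prop :=
  (∀ y, nrm U (s * y) ≤ L * nrm U y) ∧ (∀ y, nrm U (y * s) ≤ L * nrm U y) ∧
    ∀ y t, (∀ σ ∈ SU U, ‖tau U (σ * y)‖ ≤ t) → ∀ σ ∈ SU U, ‖tau U (σ * (s * y))‖ ≤ L * t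

theorem BL.mono {L L' : ℝ} {s : MU U} (h : BL L s) (hL : L ≤ L') : BL L' s :=
  ⟨fun y => (h.1 y).trans (mul_le_mul_of_nonneg_right hL (nrm_nonneg _)),
    fun y => (h.2.1 y).trans (mul_le_mul_of_nonneg_right hL (nrm_nonneg _)),
    fun y t ht σ hσ => (h.2.2 y t ht σ hσ).trans
      (mul_le_mul_of_nonneg_right hL ((norm_nonneg _).trans (ht 1 one_mem_SU)))⟩

theorem BL.mul {L L' : ℝ} {s s' : MU U} (h : BL L s) (h' : BL L' s') (hL : 0 ≤ L) (hL' : 0 ≤ L') :
    BL (L * L') (s * s') := by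
  refine ⟨fun y => ?_, fun y => ?_, fun y t ht σ hσ => ?_⟩
  · rw [mul_assoc, mul_assoc]
    exact (h.1 _).trans (mul_le_mul_of_nonneg_left (h'.1 y) hL)
  · rw [← mul_assoc, mul_comm L, mul_assoc L']
    exact (h'.2.1 _).trans (mul_le_mul_of_nonneg_left (h.2.1 y) hL')
  · rw [mul_assoc, mul_assoc]
    exact h.2.2 _ _ (h'.2.2 y t ht) σ hσ

theorem BL.add {L L' : ℝ} {s s' : MU U} (h : BL L s) (h' : BL L' s') : BL (L + L') (s + s') := by
  refine ⟨fun y => ?_, fun y => ?_, fun y t ht σ hσ => ?_⟩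
  · rw [add_mul, add_mul]
    exact (nrm_add_le _ _).trans (add_le_add (h.1 y) (h'.1 y))
  · rw [mul_add, add_mul]
    exact (nrm_add_le _ _).trans (add_le_add (h.2.1 y) (h'.2.1 y))
  · rw [add_mul, mul_add, add_mul, tau_add]
    exact (norm_add_le _ _).trans (add_le_add (h.2.2 y t ht σ hσ) (h'.2.2 y t ht σ hσ))

theorem BL_algebraMap (c : ℂ) : BL ‖c‖ (algebraMap ℂ (MU U) c) := by
  rw [Algebra.algebraMap_eq_smul_one]
  refine ⟨fun y => ?_, fun y => ?_, fun y t ht σ hσ => ?_⟩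
  · rw [smul_mul_assoc, one_mul, nrm_smul]
  · rw [mul_smul_comm, mul_one, nrm_smul]
  · rw [smul_mul_assoc, one_mul, mul_smul_comm, tau_smul, norm_mul]
    exact mul_le_mul_of_nonneg_left (ht σ hσ) (norm_nonneg _)

theorem BL_of_mem {s : MU U} (hs : s ∈ SU U) : BL 1 s := by
  refine ⟨fun y => ?_, fun y => ?_, fun y t ht σ hσ => ?_⟩
  · rw [one_mul]
    exact nrm_mul_le_of_proj (star_mul_self_of_mem_SU hs) (one_mul _) y
  · rw [one_mul]
    refine nrm_mul_le_of_proj' ?_ (one_mul 1) y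
    have := star_mul_self_of_mem_SU (star_mem_SU hs)
    rwa [star_star] at this
  · rw [one_mul, ← mul_assoc]
    exact ht _ (mul_mem_SU hσ hs)

theorem exists_BL {s : MU U} (hs : s ∈ StarAlgebra.adjoin ℂ (SU U)) :
    ∃ L : ℝ, 0 ≤ L ∧ BL L s := by
  have h : s ∈ Algebra.adjoin ℂ (SU U ∪ star (SU U)) := hs
  induction h using Algebra.adjoin_induction with
  | mem x hx =>
    refine ⟨1, zero_le_one, BL_of_mem ?_⟩
    rcases hx with hx | hx
    · exact hx
    · have := star_mem_SU (Set.mem_star.1 hx)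
      rwa [star_star] at this
  | algebraMap c => exact ⟨‖c‖, norm_nonneg _, BL_algebraMap c⟩
  | add x y hx hy ihx ihy =>
    obtain ⟨L, h0, hL⟩ := ihx hx
    obtain ⟨L', h0', hL'⟩ := ihy hy
    exact ⟨L + L', add_nonneg h0 h0', hL.add hL'⟩
  | mul x y hx hy ihx ihy =>
    obtain ⟨L, h0, hL⟩ := ihx hx
    obtain ⟨L', h0', hL'⟩ := ihy hy
    exact ⟨L * L', mul_nonneg h0 h0', hL.mul hL' h0 h0'⟩

theorem exists_BL_approx {x : MU U} (hx : x ∈ WS U) {ε : ℝ} (hε : 0 < ε) :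
    ∃ (L : ℕ) (s : MU U), BL ((L : ℝ) + 1) s ∧ nrm U (x - s) ≤ ε := by
  obtain ⟨s, hs, h⟩ := exists_approx hx hε
  obtain ⟨L, -, hL⟩ := exists_BL hs
  exact ⟨⌈L⌉₊, s, hL.mono ((Nat.le_ceil L).trans (by linarith)), h⟩

theorem diag_lemma {X : ℕ → Type} (blk : ℕ → ℕ) (W : ℕ → Set (∀ j, X j))
    (hW : ∀ h, ∃ k, h ∈ W k) : ∃ k, ∀ g : ∀ j, X j, ∃ h ∈ W k, ∀ j, blk j = k → h j = g j := by
  by_contra hc
  push Not at hc
  choose g hg using hc
  obtain ⟨k, hk⟩ := hW (fun j => g (blk j) j)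
  obtain ⟨j, hj, hne⟩ := hg k _ hk
  exact hne (by rw [hj])

theorem conj_lower {u a q s1 s2 s3 : MU U} {L1 L2 L3 δ t : ℝ} (hL1 : 0 < L1) (hL2 : 0 < L2)
    (hL3 : 0 ≤ L3) (hu : star u = u) (ha : star a = a) (hu2 : u * u = q) (ha2 : a * a = q)
    (hq : q * q = q) (hqa : q * a = a) (hqu : q * u = u)
    (h1 : BL L1 s1) (h2 : BL L2 s2) (h3 : BL L3 s3) (e1 : nrm U (u - s1) ≤ δ)
    (e2 : nrm U (u - s2) ≤ δ / L1) (e3 : nrm U (a - s3) ≤ δ / (L1 * L2))
    (ht : ∀ σ ∈ SU U, ‖tau U (σ * (u * a * u))‖ ≤ t) :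
    nrm U q ^ 2 ≤ 3 * δ * nrm U q + L1 * L3 * L2 * t := by
  set z := u * a * u with hz
  have hqs : star q = q := by rw [← hu2, star_mul, hu]
  have hzs : star z = z := by simp only [hz, star_mul, hu, ha, mul_assoc]
  have hz2 : z * z = q := by
    have : z * z = u * (a * (u * u * a)) * u := by simp only [hz, mul_assoc]
    rw [this, hu2, hqa, ha2, mul_assoc, hqu, hu2]
  have hn : nrm U z = nrm U q := by rw [nrm, nrm, hzs, hqs, hz2, hq]
  have hs := ((h1.mul h3 hL1.le hL3).mul h2 (mul_nonneg hL1.le hL3) hL2.le).2.2 z t ht 1 one_mem_SU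
  rw [one_mul] at hs
  have hd : z - s1 * s3 * s2 = (u - s1) * (a * u) + (s1 * (a * (u - s2)) + s1 * (a - s3) * s2) := by
    simp only [hz, mul_sub, sub_mul, mul_assoc]; abel
  have b1 : nrm U ((u - s1) * (a * u)) ≤ δ := by
    refine (nrm_mul_le_of_proj' (q := q) ?_ hq _).trans e1
    have : a * u * star (a * u) = a * (u * u * a) := by simp only [star_mul, hu, ha, mul_assoc]
    rw [this, hu2, hqa, ha2]
  have b2 : nrm U (s1 * (a * (u - s2))) ≤ δ := by
    refine (h1.1 _).trans ?_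
    have := (nrm_mul_le_of_proj (q := q) (u := a) (by rw [ha, ha2]) hq (u - s2)).trans e2
    rwa [le_div_iff₀' hL1] at this
  have b3 : nrm U (s1 * (a - s3) * s2) ≤ δ := by
    refine (h2.2.1 _).trans ((mul_le_mul_of_nonneg_left (h1.1 _) hL2.le).trans ?_)
    rw [le_div_iff₀' (mul_pos hL1 hL2)] at e3
    nlinarith
  have b4 : nrm U (z - s1 * s3 * s2) ≤ 3 * δ := by
    rw [hd]
    have := nrm_add_le ((u - s1) * (a * u)) (s1 * (a * (u - s2)) + s1 * (a - s3) * s2)
    have := nrm_add_le (s1 * (a * (u - s2))) (s1 * (a - s3) * s2)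
    linarith
  have b5 := (norm_tau_mul_le (z - s1 * s3 * s2) z).trans
    (mul_le_mul_of_nonneg_right b4 (nrm_nonneg _))
  have b6 : nrm U z ^ 2 = (tau U ((z - s1 * s3 * s2) * z)).re + (tau U (s1 * s3 * s2 * z)).re := by
    rw [nrm_sq, hzs, ← Complex.add_re, ← tau_add, sub_mul, sub_add_cancel]
  have b7 := Complex.re_le_norm (tau U ((z - s1 * s3 * s2) * z))
  have b8 := Complex.re_le_norm (tau U (s1 * s3 * s2 * z))
  rw [← hn]
  linarith

/-- the normalized Hadamard matrix of order two -/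
noncomputable def had : Matrix (Fin 2) (Fin 2) ℂ := (((Real.sqrt 2)⁻¹ : ℝ) : ℂ) • !![1, 1; 1, -1]

theorem had_star : star had = had := by
  ext i j
  fin_cases i <;> fin_cases j <;> simp [had, Matrix.star_apply]

theorem had_mul : had * had = 1 := by
  have h : (((Real.sqrt 2 : ℝ) : ℂ))⁻¹ * (((Real.sqrt 2 : ℝ) : ℂ))⁻¹ = 2⁻¹ := by
    rw [← mul_inv, ← Complex.ofReal_mul, Real.mul_self_sqrt (by norm_num)]
    simp
  ext i j
  fin_cases i <;> fin_cases j <;> simp [had, Matrix.mul_apply, Fin.sum_univ_two, h] <;> norm_num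

theorem had_norm (i j : Fin 2) : ‖had i j‖ ^ 2 = 2⁻¹ := by
  fin_cases i <;> fin_cases j <;> simp [had]

/-- index set of a Hadamard matrix of order `2 ^ t` -/
abbrev Cube (t : ℕ) : Type := Fin t → Fin 2

/-- a self-adjoint unitary with zero diagonal blocks and flat entries -/
noncomputable def flat (t : ℕ) : Matrix (Cube t ⊕ Cube t) (Cube t ⊕ Cube t) ℂ :=
  Matrix.fromBlocks 0 (tens fun _ : Fin t => had) (tens fun _ : Fin t => had) 0

theorem flat_star (t : ℕ) : star (flat t) = flat t := by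
  have h : (tens fun _ : Fin t => had)ᴴ = tens fun _ : Fin t => had := by
    rw [← Matrix.star_eq_conjTranspose, tens_star]; simp only [had_star]
  simp only [flat, Matrix.star_eq_conjTranspose, Matrix.fromBlocks_conjTranspose, h,
    Matrix.conjTranspose_zero]

theorem flat_mul (t : ℕ) : flat t * flat t = 1 := by
  simp only [flat, Matrix.fromBlocks_multiply, tens_mul, had_mul, tens_one, Matrix.mul_zero,
    Matrix.zero_mul, add_zero, zero_add, Matrix.fromBlocks_one]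

theorem flat_norm (t : ℕ) (x y : Cube t ⊕ Cube t) : ‖flat t x y‖ ^ 2 ≤ (2⁻¹ : ℝ) ^ t := by
  have h : ∀ x y : Cube t, ‖(tens fun _ : Fin t => had) x y‖ ^ 2 = (2⁻¹ : ℝ) ^ t := by
    intro x y
    simp only [tens, Matrix.of_apply, norm_prod, ← Finset.prod_pow, had_norm]
    simp
  rcases x with x | x <;> rcases y with y | y <;> simp [flat, h]

end Pool.Agent.MP_9e3e49_an.H51
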