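import Mathlib
import Pool.Agent.MP_9e3e49_an.H51.Approx

/-! The main theorem. -/

namespace Pool.Agent.MP_9e3e49_an.H51

open Filter Topology Matrix

set_option linter.unusedSectionVars false

section
variable {Ω : ℕ → Type} [∀ j, Fintype (Ω j)] [∀ j, DecidableEq (Ω j)]

theorem update_mul (b c : ∀ j, Matrix (Ω j) (Ω j) ℂ) (j : ℕ) (B C : Matrix (Ω j) (Ω j) ℂ) :
    Function.update b j B * Function.update c j C = Function.update (b * c) j (B * C) := by
  funext i
  by_cases h : i = j
  · subst h; simp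
  · simp [Function.update_of_ne h]

theorem update_star (b : ∀ j, Matrix (Ω j) (Ω j) ℂ) (j : ℕ) (B : Matrix (Ω j) (Ω j) ℂ) :
    star (Function.update b j B) = Function.update (star b) j (star B) := by
  funext i
  by_cases h : i = j
  · subst h; simp
  · simp [Function.update_of_ne h]

theorem star_single_one {X : Type} [DecidableEq X] (x y : X) :
    star (Matrix.single x y (1 : ℂ)) = Matrix.single y x 1 := by
  rw [Matrix.star_eq_conjTranspose, Matrix.conjTranspose_single, star_one]

theorem good_update {b : ∀ j, Matrix (Ω j) (Ω j) ℂ} (hb : b * star b * b = b) (j : ℕ)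
    (x y : Ω j) :
    Function.update b j (Matrix.single x y 1) * star (Function.update b j (Matrix.single x y 1)) *
      Function.update b j (Matrix.single x y 1) = Function.update b j (Matrix.single x y 1) := by
  rw [update_star, update_mul, update_mul, hb, star_single_one, Matrix.single_mul_single_same,
    Matrix.single_mul_single_same, one_mul, one_mul]

theorem sum_TT_single [∀ j, Nonempty (Ω j)] {V : Ultrafilter ℕ} (hV : (V : Filter ℕ) ≤ cofinite)
    (j : ℕ) : ∑ x : Ω j, TT V (Function.update (1 : ∀ j, Matrix (Ω j) (Ω j) ℂ) j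
      (Matrix.single x x 1)) = 1 := by
  have e : ∑ x : Ω j, (1 : ℂ) • Matrix.single x x (1 : ℂ) = (1 : ∀ j, Matrix (Ω j) (Ω j) ℂ) j := by
    simp only [one_smul, Matrix.sum_single_one, Pi.one_apply]
  have h := TT_update_sum (V := V) hV (1 : ∀ j, Matrix (Ω j) (Ω j) ℂ) j (fun _ : Ω j => (1 : ℂ))
    (fun x => Matrix.single x x 1)
    (by rw [e, Function.update_eq_self]; exact Tseq_mem (by simp))
    (fun x => Tseq_mem (good_update (by simp) j x x))
  rw [e, Function.update_eq_self, TT_one hV] at h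
  simpa using h.symm

end

/-- the index set of the `j`-th tensor factor -/
abbrev Om (j : ℕ) : Type := Cube (Nat.unpair j).2 ⊕ Cube (Nat.unpair j).2

/-- the sign data in the `j`-th tensor factor -/
abbrev Sg (j : ℕ) : Type := Finset (Cube (Nat.unpair j).2) × Finset (Cube (Nat.unpair j).2)

/-- diagonal sign matrices -/
noncomputable def Dg (h : ∀ j, Sg j) : ∀ j, Matrix (Om j) (Om j) ℂ :=
  fun j => Matrix.diagonal (sg2 (h j))

/-- flat unitaries along the `k`-th block -/
noncomputable def ak (k : ℕ) : ∀ j, Matrix (Om j) (Om j) ℂ :=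
  fun j => if (Nat.unpair j).1 = k then flat (Nat.unpair j).2 else 1

theorem Dg_star (h : ∀ j, Sg j) : star (Dg h) = Dg h := by
  funext j
  simp only [Pi.star_apply, Dg, Matrix.star_eq_conjTranspose, Matrix.diagonal_conjTranspose]
  congr 1
  funext x
  rcases x with x | x <;> exact star_sg _ _

theorem Dg_mul (h : ∀ j, Sg j) : Dg h * Dg h = 1 := by
  funext j
  simp only [Pi.mul_apply, Dg, Matrix.diagonal_mul_diagonal, Pi.one_apply]
  rw [← Matrix.diagonal_one]
  congr 1
  funext x
  rcases x with x | x <;> exact sg_mul_self _ _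

theorem ak_star (k : ℕ) : star (ak k) = ak k := by
  funext j
  simp only [Pi.star_apply, ak]
  split_ifs
  · exact flat_star _
  · exact star_one _

theorem ak_mul (k : ℕ) : ak k * ak k = 1 := by
  funext j
  simp only [Pi.mul_apply, ak, Pi.one_apply]
  split_ifs
  · exact flat_mul _
  · exact one_mul _

theorem conj_eq (k j : ℕ) (hj : (Nat.unpair j).1 = k) (T : Sg j) (h : ∀ j, Sg j)
    (hh : ∀ i, (Nat.unpair i).1 = k →
      h i = Function.update (fun i => ((Finset.univ, Finset.univ) : Sg i)) j T i) :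
    Dg h * ak k * Dg h = Function.update (ak k) j
      (∑ p : Om j × Om j, (sg2 T p.1 * sg2 T p.2 * flat _ p.1 p.2) • Matrix.single p.1 p.2 1) := by
  funext i
  by_cases hi : i = j
  · subst hi
    have e : h i = T := by rw [hh i hj, Function.update_self]
    simp only [Pi.mul_apply, Dg, ak, hj, if_true, Function.update_self, e]
    rw [Fintype.sum_prod_type]
    simp only [Matrix.smul_single, smul_eq_mul, mul_one]
    rw [Matrix.sum_sum_single]
    ext x y
    simp only [Matrix.mul_diagonal, Matrix.diagonal_mul, Matrix.of_apply]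
    ring
  · rw [Function.update_of_ne hi]
    by_cases hk : (Nat.unpair i).1 = k
    · have e : Dg h i = 1 := by
        rw [Dg, hh i hk, Function.update_of_ne hi, ← Matrix.diagonal_one]
        congr 1
        funext x
        rcases x with x | x <;> simp [sg2, sg]
      simp only [Pi.mul_apply, e, one_mul, mul_one]
    · have e : ak k i = 1 := by simp only [ak, hk, if_false]
      have e2 := congrFun (Dg_mul h) i
      simp only [Pi.mul_apply, e, mul_one] at e2 ⊢
      exact e2

theorem hom_one_eq_zero {U V : Ultrafilter ℕ} (hV : (V : Filter ℕ) ≤ cofinite)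
    (θ : MU V →⋆ₙₐ[ℂ] MU U) (hθ : ∀ x, θ x ∈ WS U) : θ 1 = 0 := by
  by_contra hne
  set q := θ 1 with hqdef
  have hγ : 0 < nrm U q := lt_of_le_of_ne (nrm_nonneg _) fun h => hne (eq_zero_of_nrm h.symm)
  set γ := nrm U q with hγdef
  have hq : q * q = q := by rw [hqdef, ← map_mul, one_mul]
  have hqs : star q = q := by rw [hqdef, ← map_star, star_one]
  have hq1 : ∀ x, q * θ x = θ x := fun x => by rw [hqdef, ← map_mul, one_mul]
  have gD : ∀ h, Dg h * star (Dg h) * Dg h = Dg h := fun h => by rw [Dg_star, Dg_mul, one_mul]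
  have gA : ∀ k, ak k * star (ak k) * ak k = ak k := fun k => by rw [ak_star, ak_mul, one_mul]
  have g1 : (1 : ∀ j, Matrix (Om j) (Om j) ℂ) * star 1 * 1 = 1 := by simp
  set δ := γ / 6 with hδ
  have hδ0 : 0 < δ := by positivity
  let W : ℕ → Set (∀ j, Sg j) := fun k => {h | ∃ s1 s2 : MU U,
    BL (((Nat.unpair k).1 : ℝ) + 1) s1 ∧ BL (((Nat.unpair k).2 : ℝ) + 1) s2 ∧
    nrm U (θ (TT V (Dg h)) - s1) ≤ δ ∧
    nrm U (θ (TT V (Dg h)) - s2) ≤ δ / (((Nat.unpair k).1 : ℝ) + 1)}
  have hW : ∀ h, ∃ k, h ∈ W k := by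
    intro h
    obtain ⟨L1, s1, h1, e1⟩ := exists_BL_approx (hθ (TT V (Dg h))) hδ0
    obtain ⟨L2, s2, h2, e2⟩ := exists_BL_approx (hθ (TT V (Dg h)))
      (show 0 < δ / ((L1 : ℝ) + 1) by positivity)
    refine ⟨Nat.pair L1 L2, s1, s2, ?_⟩
    simp only [Nat.unpair_pair]
    exact ⟨h1, h2, e1, e2⟩
  obtain ⟨k, hk⟩ := diag_lemma (fun j => (Nat.unpair j).1) W hW
  set L1 : ℝ := ((Nat.unpair k).1 : ℝ) + 1 with hL1
  set L2 : ℝ := ((Nat.unpair k).2 : ℝ) + 1 with hL2
  have hL10 : 0 < L1 := by positivity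
  have hL20 : 0 < L2 := by positivity
  obtain ⟨L3', s3, h3, e3⟩ := exists_BL_approx (hθ (TT V (ak k)))
    (show 0 < δ / (L1 * L2) by positivity)
  set L3 : ℝ := (L3' : ℝ) + 1 with hL3
  have hL30 : 0 < L3 := by positivity
  set t : ℝ := γ ^ 2 / (4 * (L1 * L3 * L2)) with ht
  have ht0 : 0 < t := by positivity
  obtain ⟨m, hm⟩ := exists_pow_lt_of_lt_one (show 0 < t ^ 4 / (288 * γ ^ 2) by positivity)
    (show (2⁻¹ : ℝ) < 1 by norm_num)
  set j := Nat.pair k m with hj
  have hj1 : (Nat.unpair j).1 = k := by simp [hj]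
  have hj2 : (Nat.unpair j).2 = m := by simp [hj]
  let x0 : Om j := Sum.inl fun _ => 0
  let v : Om j → MU U := fun x =>
    θ (TT V (Function.update (1 : ∀ j, Matrix (Om j) (Om j) ℂ) j (Matrix.single x x0 1)))
  let w : Om j → MU U := fun y => θ (TT V (Function.update (ak k) j (Matrix.single x0 y 1)))
  have hvw : ∀ x y, v x * w y = θ (TT V (Function.update (ak k) j (Matrix.single x y 1))) := by
    intro x y
    simp only [v, w]
    rw [← map_mul, TT_mul (good_update g1 j _ _) (good_update (gA k) j _ _), update_mul, one_mul,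
      Matrix.single_mul_single_same, one_mul]
  have hstar : ∀ (b : ∀ j, Matrix (Om j) (Om j) ℂ) (x y : Om j), b * star b * b = b →
      star b * star (star b) * star b = star b := by
    intro b _ _ hb
    rw [← star_mul, ← star_mul, ← mul_assoc, hb]
  have hv : ∑ x, v x * star (v x) = q := by
    rw [hqdef, ← sum_TT_single (Ω := Om) hV j, map_sum]
    refine Finset.sum_congr rfl fun x _ => ?_
    simp only [v]
    rw [← map_star, ← map_mul, TT_star (good_update g1 j _ _),
      TT_mul (good_update g1 j _ _) (hstar _ x x (good_update g1 j _ _)), update_star, update_mul,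
      star_one, one_mul, star_single_one, Matrix.single_mul_single_same, one_mul]
  have hww : ∀ x y : Om j, star (θ (TT V (Function.update (ak k) j (Matrix.single x y 1)))) *
      θ (TT V (Function.update (ak k) j (Matrix.single x y 1))) =
      θ (TT V (Function.update (1 : ∀ j, Matrix (Om j) (Om j) ℂ) j (Matrix.single y y 1))) := by
    intro x y
    rw [← map_star, ← map_mul, TT_star (good_update (gA k) j _ _),
      TT_mul (hstar _ x x (good_update (gA k) j _ _)) (good_update (gA k) j _ _), update_star,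
      update_mul, ak_star, ak_mul, star_single_one, Matrix.single_mul_single_same, one_mul]
  have hw : ∑ x, star (w x) * w x = q := by
    rw [hqdef, ← sum_TT_single (Ω := Om) hV j, map_sum]
    exact Finset.sum_congr rfl fun x _ => hww x0 x
  have hsum : ∑ x, ∑ y, nrm U (v x * w y) ^ 2 = 2 * 2 ^ m * γ ^ 2 := by
    have : ∀ x, ∑ y, nrm U (v x * w y) ^ 2 = γ ^ 2 := by
      intro x
      simp only [hvw, nrm_sq, hww]
      rw [← Complex.re_sum, ← tau_sum, ← map_sum, sum_TT_single hV j, hγdef, nrm_sq, hqs, hq]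
    simp only [this, Finset.sum_const, Finset.card_univ, Fintype.card_sum, Fintype.card_fun,
      Fintype.card_fin, hj2, nsmul_eq_mul]
    push_cast
    ring
  have hb : 144 * ((2⁻¹ : ℝ) ^ (Nat.unpair j).2) ^ 2 * ∑ x, ∑ y, nrm U (v x * w y) ^ 2 <
      t ^ 4 := by
    rw [hsum, hj2]
    rw [lt_div_iff₀ (by positivity)] at hm
    refine lt_of_eq_of_lt ?_ hm
    have : (2⁻¹ : ℝ) ^ m * 2 ^ m = 1 := by rw [← mul_pow]; simp
    linear_combination (288 * (2⁻¹ : ℝ) ^ m * γ ^ 2) * this
  obtain ⟨T, hT⟩ := spread (flat (Nat.unpair j).2) _ (fun _ _ => rfl) (fun _ _ => rfl)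
    (flat_norm _) (by positivity) v w (by rw [hv, hq]) (by rw [hw, hq]) t ht0.le hb
  obtain ⟨h, ⟨s1, s2, h1, h2, e1, e2⟩, hh⟩ :=
    hk (Function.update (fun i => ((Finset.univ, Finset.univ) : Sg i)) j T)
  have hc := conj_eq k j hj1 T h hh
  have gDA : (Dg h * ak k) * star (Dg h * ak k) * (Dg h * ak k) = Dg h * ak k := by
    rw [star_mul, Dg_star, ak_star, mul_assoc (Dg h), ← mul_assoc (ak k), ak_mul, one_mul, Dg_mul,
      one_mul]
  have hz : θ (TT V (Dg h)) * θ (TT V (ak k)) * θ (TT V (Dg h)) =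
      ∑ x, ∑ y, (sg2 T x * sg2 T y * flat (Nat.unpair j).2 x y) • (v x * w y) := by
    rw [← map_mul, ← map_mul, TT_mul (gD h) (gA k), TT_mul gDA (gD h), hc, TT_update_sum hV,
      map_sum, Fintype.sum_prod_type]
    · simp only [map_smul, hvw]
    · rw [← hc, ← Tseq_mul]
      exact mul_mem (Tseq_mem gDA) (Tseq_mem (gD h))
    · exact fun p => Tseq_mem (good_update (gA k) j _ _)
  have hfin := conj_lower (u := θ (TT V (Dg h))) (a := θ (TT V (ak k))) (q := q) hL10 hL20 hL30.le
    (by rw [← map_star, TT_star (gD h), Dg_star]) (by rw [← map_star, TT_star (gA k), ak_star])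
    (by rw [← map_mul, TT_mul (gD h) (gD h), Dg_mul, TT_one hV])
    (by rw [← map_mul, TT_mul (gA k) (gA k), ak_mul, TT_one hV]) hq (hq1 _) (hq1 _)
    h1 h2 h3 e1 e2 e3 (by rw [hz]; exact hT)
  have e4 : L1 * L3 * L2 * t = γ ^ 2 / 4 := by
    rw [ht]; field_simp
  rw [e4, ← hγdef, hδ] at hfin
  nlinarith

theorem one_ne_zero_MU {V : Ultrafilter ℕ} (hV : (V : Filter ℕ) ≤ cofinite) :
    (1 : MU V) ≠ 0 := by
  rw [← map_one (mk V), Ne, mk_eq_zero_iff]
  intro h
  rw [Nat.cofinite_eq_atTop] at hV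
  have h2 : Tendsto (fun n => twoNorm (term (1 : Bdd) n)) V (𝓝 1) := by
    refine tendsto_const_nhds.congr' ?_
    filter_upwards [hV (eventually_gt_atTop 0)] with n hn
    change 1 = twoNorm (1 : Matrix (Fin n) (Fin n) ℂ)
    have : (n : ℝ) ≠ 0 := by exact_mod_cast (ne_of_gt hn)
    simp [twoNorm, this]
  exact zero_ne_one (tendsto_nhds_unique h h2)

end Pool.Agent.MP_9e3e49_an.H51
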